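import Mathlib

set_option autoImplicit false

open scoped ComplexConjugate

namespace Pool.Agent.MX

/-- planar field `∑ q_j (a_j - z)/|a_j - z|^3` -/
noncomputable def PGrad (q : Fin 3 → ℝ) (a : Fin 3 → ℂ) (z : ℂ) : ℂ :=
  ∑ j, ((q j / ‖a j - z‖ ^ 3 : ℝ) : ℂ) * (a j - z)

/-- trace of the planar Hessian -/
noncomputable def PT (q : Fin 3 → ℝ) (a : Fin 3 → ℂ) (z : ℂ) : ℝ :=
  ∑ j, q j / ‖a j - z‖ ^ 3

/-- complex second moment; the planar Hessian is `v ↦ (PT/2) v + (3/2) PM * conj v` -/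
noncomputable def PM (q : Fin 3 → ℝ) (a : Fin 3 → ℂ) (z : ℂ) : ℂ :=
  ∑ j, ((q j / ‖a j - z‖ ^ 5 : ℝ) : ℂ) * (a j - z) ^ 2

/-- planar equilibrium -/
def PEq (q : Fin 3 → ℝ) (a : Fin 3 → ℂ) (z : ℂ) : Prop :=
  (∀ j, z ≠ a j) ∧ PGrad q a z = 0

/-- twice the signed area of the triangle `a 0, a 1, a 2` -/
noncomputable def T2 (a : Fin 3 → ℂ) : ℝ := (conj (a 1 - a 0) * (a 2 - a 0)).im

/-- `tau c th i = (cot θ_i + cot (c_i - θ_i)) / 2` -/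
noncomputable def tau (c th : Fin 3 → ℝ) (i : Fin 3) : ℝ :=
  (Real.cos (th i) / Real.sin (th i) + Real.cos (c i - th i) / Real.sin (c i - th i)) / 2

/-- `F = e_2(tau)` -/
noncomputable def FF (c th : Fin 3 → ℝ) : ℝ :=
  tau c th 0 * tau c th 1 + tau c th 1 * tau c th 2 + tau c th 2 * tau c th 0

/-- statement of the uniqueness theorem in angle form (block UNIQ) -/
def AngleUnique : Prop :=
  ∀ (c th th' : Fin 3 → ℝ), (∑ i, c i = 2 * Real.pi) →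
    (∀ i, 0 < th i ∧ th i < c i) → (∀ i, 0 < th' i ∧ th' i < c i) →
    (∑ i, th i = Real.pi) → (∑ i, th' i = Real.pi) →
    FF c th < 9 / 8 → FF c th' < 9 / 8 →
    ∀ lam : ℝ, (∀ i, Real.sin (th i) * Real.sin (c i - th i) ^ 2
      = lam * (Real.sin (th' i) * Real.sin (c i - th' i) ^ 2)) → th = th'

/-- statement of the planar count (block COUNT) -/
def PlanarCount : Prop :=
  ∀ (q : Fin 3 → ℝ) (a : Fin 3 → ℂ), T2 a ≠ 0 → (∀ j, q j ≠ 0) →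
    (∀ z, PEq q a z → PT q a z ^ 2 ≠ 9 * ‖PM q a z‖ ^ 2) →
    (∀ z w, PEq q a z → PEq q a w → 9 * ‖PM q a z‖ ^ 2 < PT q a z ^ 2 →
      9 * ‖PM q a w‖ ^ 2 < PT q a w ^ 2 → z = w) →
    {z | PEq q a z}.encard ≤ 4

end Pool.Agent.MX
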