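import Mathlib
import Pool.Agent.Lib_helper17.MX.Defs

set_option autoImplicit false

open Real (pi sin cos)

namespace Pool.Agent.MX

/-- data attached to a planar point (all angles and lengths) -/
structure ZData (T : ℝ) (L c r D t R : Fin 3 → ℝ) (W : ℝ) : Prop where
  hT : 0 < T
  hL : ∀ i, 0 < L i
  hc : ∑ i, c i = 2 * pi
  hr : ∀ i, 0 < r i
  hR0 : R 0 = r 1 * r 2
  hR1 : R 1 = r 2 * r 0
  hR2 : R 2 = r 0 * r 1
  hD : ∀ i, D i ≠ 0
  hW0 : W ≠ 0
  hDT : ∑ i, D i = T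
  hW : W = D 0 * r 0 ^ 2 + D 1 * r 1 ^ 2 + D 2 * r 2 ^ 2
  ht : ∀ i, 0 < t i ∧ t i < c i
  hs : ∑ i, t i = pi
  h1 : ∀ i, sin (t i) = |D i| / R i
  h2 : ∀ i, sin (c i - t i) = |W| / (R i * L i)
  h3 : ∀ i, D i * sin (c i) = |D i| * T / L i

variable {T : ℝ} {L c r D t R r' D' t' R' : Fin 3 → ℝ} {W W' : ℝ}

theorem ZData.Rpos (h : ZData T L c r D t R W) : ∀ i, 0 < R i := by
  have h0 := h.hr 0
  have h1 := h.hr 1
  have h2 := h.hr 2
  intro i
  fin_cases i
  · show 0 < R 0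
    rw [h.hR0]; positivity
  · show 0 < R 1
    rw [h.hR1]; positivity
  · show 0 < R 2
    rw [h.hR2]; positivity

theorem ZData.tau_eq (h : ZData T L c r D t R W) (i : Fin 3) :
    tau c t i = T * R i ^ 2 / (2 * D i * |W|) := by
  have hR := h.Rpos i
  have hL := h.hL i
  have hD := h.hD i
  have hDa : 0 < |D i| := abs_pos.mpr hD
  have hWa : 0 < |W| := abs_pos.mpr h.hW0
  have e1 := h.h1 i
  have e2 := h.h2 i
  have e3 := h.h3 i
  have s1 : sin (t i) ≠ 0 := by rw [e1]; positivity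
  have s2 : sin (c i - t i) ≠ 0 := by rw [e2]; positivity
  have hsum : sin (c i) = sin (t i) * cos (c i - t i) + cos (t i) * sin (c i - t i) := by
    rw [← Real.sin_add]; congr 1; ring
  have e4 : tau c t i = sin (c i) / (2 * sin (t i) * sin (c i - t i)) := by
    unfold tau
    rw [hsum]
    field_simp
    ring
  have e5 : sin (c i) = |D i| * T / (L i * D i) := by
    field_simp
    field_simp at e3
    linarith
  rw [e4, e5, e1, e2]
  field_simp

theorem ZData.FF_eq (h : ZData T L c r D t R W) :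
    FF c t = T ^ 2 * (r 0 ^ 2 * r 1 ^ 2 * r 2 ^ 2) / (4 * (W * (D 0 * D 1 * D 2))) := by
  unfold FF
  rw [h.tau_eq, h.tau_eq, h.tau_eq, h.hR0, h.hR1, h.hR2]
  have hW0 := h.hW0
  have hWa : |W| ≠ 0 := abs_ne_zero.mpr h.hW0
  have h0 := h.hD 0
  have h1 := h.hD 1
  have h2 := h.hD 2
  have hsq : |W| ^ 2 = W ^ 2 := sq_abs W
  have e : T * (r 1 * r 2) ^ 2 / (2 * D 0 * |W|) * (T * (r 2 * r 0) ^ 2 / (2 * D 1 * |W|)) +
      T * (r 2 * r 0) ^ 2 / (2 * D 1 * |W|) * (T * (r 0 * r 1) ^ 2 / (2 * D 2 * |W|)) +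
      T * (r 0 * r 1) ^ 2 / (2 * D 2 * |W|) * (T * (r 1 * r 2) ^ 2 / (2 * D 0 * |W|)) =
      T ^ 2 * (r 0 ^ 2 * r 1 ^ 2 * r 2 ^ 2) *
        (D 0 * r 0 ^ 2 + D 1 * r 1 ^ 2 + D 2 * r 2 ^ 2) / (4 * |W| ^ 2 * (D 0 * D 1 * D 2)) := by
    field_simp
    ring
  rw [e, hsq, ← h.hW]
  field_simp

theorem ZData.m_eq (h : ZData T L c r D t R W) (i : Fin 3) :
    sin (t i) * sin (c i - t i) ^ 2 =
      (|D i| * r i ^ 3) / L i ^ 2 * (W ^ 2 / (r 0 ^ 3 * r 1 ^ 3 * r 2 ^ 3)) := by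
  have hR := h.Rpos i
  have hL := h.hL i
  have hD := h.hD i
  have hri := h.hr i
  have h0 := h.hr 0
  have h1 := h.hr 1
  have h2 := h.hr 2
  have hprod : R i ^ 3 * r i ^ 3 = r 0 ^ 3 * r 1 ^ 3 * r 2 ^ 3 := by
    fin_cases i
    · show R 0 ^ 3 * r 0 ^ 3 = _
      rw [h.hR0]; ring
    · show R 1 ^ 3 * r 1 ^ 3 = _
      rw [h.hR1]; ring
    · show R 2 ^ 3 * r 2 ^ 3 = _
      rw [h.hR2]; ring
  rw [h.h1, h.h2, ← hprod, div_pow, sq_abs]
  field_simp

theorem unique_core (hAU : AngleUnique) (h : ZData T L c r D t R W) (h' : ZData T L c r' D' t' R' W')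
    (hF : 2 * T ^ 2 * (r 0 ^ 2 * r 1 ^ 2 * r 2 ^ 2) < 9 * (W * (D 0 * D 1 * D 2)))
    (hF' : 2 * T ^ 2 * (r' 0 ^ 2 * r' 1 ^ 2 * r' 2 ^ 2) < 9 * (W' * (D' 0 * D' 1 * D' 2)))
    (κ κ' : ℝ) (hκ : κ ≠ 0) (hκ' : κ' ≠ 0)
    (hq : ∀ i, κ * D i * r i ^ 3 = κ' * D' i * r' i ^ 3) : D = D' := by
  have hlt : ∀ {T r0 W P : ℝ}, 0 < T → 0 < r0 → 2 * T ^ 2 * r0 < 9 * P → 
      T ^ 2 * r0 / (4 * P) < 9 / 8 := by
    intro T r0 W P hT hr h
    have hP : 0 < P := by
      have : 0 < 2 * T ^ 2 * r0 := by positivity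
      linarith
    rw [div_lt_div_iff₀ (by positivity) (by norm_num)]
    linarith
  have r0 := h.hr 0
  have r1 := h.hr 1
  have r2 := h.hr 2
  have r0' := h'.hr 0
  have r1' := h'.hr 1
  have r2' := h'.hr 2
  have hWa : 0 < |W| := abs_pos.mpr h.hW0
  have hWa' : 0 < |W'| := abs_pos.mpr h'.hW0
  have hκa : 0 < |κ| := abs_pos.mpr hκ
  have hκa' : 0 < |κ'| := abs_pos.mpr hκ'
  have hW2 : W ^ 2 ≠ 0 := pow_ne_zero 2 h.hW0
  have hW2' : W' ^ 2 ≠ 0 := pow_ne_zero 2 h'.hW0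
  have hF1 : FF c t < 9 / 8 := by
    rw [h.FF_eq]
    exact hlt (W := W) h.hT (by positivity) hF
  have hF1' : FF c t' < 9 / 8 := by
    rw [h'.FF_eq]
    exact hlt (W := W) h.hT (by positivity) hF'
  have hW02 := h.hW0
  have hW02' := h'.hW0
  have key : t = t' := by
    refine hAU c t t' h.hc h.ht h'.ht h.hs h'.hs hF1 hF1'
      ((|κ'| / |κ|) * (W ^ 2 / (r 0 ^ 3 * r 1 ^ 3 * r 2 ^ 3)) /
        (W' ^ 2 / (r' 0 ^ 3 * r' 1 ^ 3 * r' 2 ^ 3))) ?_
    intro i
    rw [h.m_eq i, h'.m_eq i]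
    have hLi := h.hL i
    have hq1 : |κ| * (|D i| * r i ^ 3) = |κ'| * (|D' i| * r' i ^ 3) := by
      have e := congrArg abs (hq i)
      rw [abs_mul, abs_mul, abs_mul, abs_mul, abs_of_pos (pow_pos (h.hr i) 3),
        abs_of_pos (pow_pos (h'.hr i) 3)] at e
      linarith
    have hq2 : |D i| * r i ^ 3 = |κ'| / |κ| * (|D' i| * r' i ^ 3) := by
      field_simp
      linarith
    rw [hq2]
    field_simp
  subst key
  have hDW : ∀ i, D i * |W'| = D' i * |W| := by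
    intro i
    have hL := h.hL i
    have hD := h.hD i
    have hD' := h'.hD i
    have hDa : 0 < |D i| := abs_pos.mpr hD
    have hDa' : 0 < |D' i| := abs_pos.mpr hD'
    have hR := h.Rpos i
    have hR' := h'.Rpos i
    have hT := h.hT
    have e1 := (h.h1 i).symm.trans (h'.h1 i)
    have e2 := (h.h2 i).symm.trans (h'.h2 i)
    have e3 := h.h3 i
    have e3' := h'.h3 i
    have e4 : |D i| * |W'| = |D' i| * |W| := by
      field_simp at e1 e2
      have : (R i * R' i) * (|D i| * |W'|) = (R i * R' i) * (|D' i| * |W|) := by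
        linear_combination (|W'| * R i) * e1 - (|D' i| * R i) * e2
      exact mul_left_cancel₀ (by positivity) this
    have e5 : D i * |D' i| = D' i * |D i| := by
      have k1 : D i * |D' i| * (T / L i) = D' i * |D i| * (T / L i) := by
        have a1 : |D i| * (T / L i) = D i * sin (c i) := by rw [e3]; ring
        have a2 : |D' i| * (T / L i) = D' i * sin (c i) := by rw [e3']; ring
        calc D i * |D' i| * (T / L i) = D i * (|D' i| * (T / L i)) := by ring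
          _ = D i * (D' i * sin (c i)) := by rw [a2]
          _ = D' i * (D i * sin (c i)) := by ring
          _ = D' i * (|D i| * (T / L i)) := by rw [a1]
          _ = _ := by ring
      exact mul_right_cancel₀ (by positivity) k1
    have : |D i| * (D i * |W'|) = |D i| * (D' i * |W|) := by
      calc |D i| * (D i * |W'|) = D i * (|D i| * |W'|) := by ring
        _ = D i * (|D' i| * |W|) := by rw [e4]
        _ = (D i * |D' i|) * |W| := by ring
        _ = (D' i * |D i|) * |W| := by rw [e5]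
        _ = _ := by ring
    exact mul_left_cancel₀ hDa.ne' this
  have hWW : |W'| = |W| := by
    have e : (∑ i, D i) * |W'| = (∑ i, D' i) * |W| := by
      rw [Finset.sum_mul, Finset.sum_mul]
      exact Finset.sum_congr rfl fun i _ => hDW i
    rw [h.hDT, h'.hDT] at e
    exact mul_left_cancel₀ h.hT.ne' e
  funext i
  have := hDW i
  rw [hWW] at this
  exact mul_right_cancel₀ hWa.ne' this

end Pool.Agent.MX
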