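import Mathlib
import Pool.Agent.Lib_helper17.MX.Defs

set_option autoImplicit false

open scoped ComplexConjugate
open Real (pi sin cos)

namespace Pool.Agent.MX

/-- planar cross product -/
noncomputable def crs (x y : ℂ) : ℝ := (conj x * y).im

theorem crs_eq (x y : ℂ) : crs x y = x.re * y.im - x.im * y.re := by
  simp only [crs, Complex.mul_im, Complex.conj_re, Complex.conj_im]; ring

theorem crs_swap (x y : ℂ) : crs y x = - crs x y := by
  rw [crs_eq, crs_eq]; ring

/-- the angle from `x` to `y` -/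
noncomputable def ang (x y : ℂ) : ℝ := Complex.arg (y * conj x)

theorem im_mul_conj (x y : ℂ) : (y * conj x).im = crs x y := by
  rw [crs_eq]; simp only [Complex.mul_im, Complex.conj_re, Complex.conj_im]; ring

theorem ang_mem (x y : ℂ) (h : 0 < crs x y) : 0 < ang x y ∧ ang x y < pi := by
  rw [← im_mul_conj] at h
  have h1 : 0 ≤ ang x y := Complex.arg_nonneg_iff.mpr h.le
  have h2 : ang x y ≤ pi := Complex.arg_le_pi _
  constructor
  · refine lt_of_le_of_ne h1 ?_
    intro h0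
    have : Complex.arg (y * conj x) = 0 := h0.symm
    rw [Complex.arg_eq_zero_iff] at this
    exact h.ne' this.2
  · refine lt_of_le_of_ne h2 ?_
    intro h0
    have : Complex.arg (y * conj x) = pi := h0
    rw [Complex.arg_eq_pi_iff] at this
    exact h.ne' this.2

theorem ne_of_crs (x y : ℂ) (h : 0 < crs x y) : x ≠ 0 ∧ y ≠ 0 := by
  constructor
  · rintro rfl; simp [crs] at h
  · rintro rfl; simp [crs] at h

theorem sin_ang (x y : ℂ) : sin (ang x y) = crs x y / (‖x‖ * ‖y‖) := by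
  unfold ang
  rw [Complex.sin_arg, im_mul_conj, norm_mul, Complex.norm_conj, mul_comm ‖y‖]

theorem cos_ang (x y : ℂ) (hx : x ≠ 0) (hy : y ≠ 0) :
    cos (ang x y) = (y * conj x).re / (‖x‖ * ‖y‖) := by
  unfold ang
  have : y * conj x ≠ 0 := mul_ne_zero hy ((map_ne_zero _).mpr hx)
  rw [Complex.cos_arg this, norm_mul, Complex.norm_conj, mul_comm ‖y‖]

/-- the symmetric sum -/
noncomputable def WW (x y z : ℂ) : ℝ :=
  crs y z * ‖x‖ ^ 2 + crs z x * ‖y‖ ^ 2 + crs x y * ‖z‖ ^ 2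

theorem sq_norm_eq (x : ℂ) : ‖x‖ ^ 2 = x.re * x.re + x.im * x.im := by
  rw [← Complex.normSq_eq_norm_sq, Complex.normSq_apply]

theorem WW_eq (x y z : ℂ) : WW x y z =
    crs y z * (x.re * x.re + x.im * x.im) + crs z x * (y.re * y.re + y.im * y.im) +
      crs x y * (z.re * z.re + z.im * z.im) := by
  unfold WW; rw [sq_norm_eq, sq_norm_eq, sq_norm_eq]

theorem sin_ang_sub (x y z : ℂ) (hy : y ≠ 0) (hz : z ≠ 0) (hyx : y - x ≠ 0) (hzx : z - x ≠ 0) :
    sin (ang y z - ang (y - x) (z - x)) =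
      WW x y z / (‖y‖ * ‖z‖ * (‖y - x‖ * ‖z - x‖)) := by
  rw [Real.sin_sub, sin_ang, sin_ang, cos_ang _ _ hy hz, cos_ang _ _ hyx hzx, div_mul_div_comm,
    div_mul_div_comm, ← sub_div]
  congr 1
  rw [WW_eq]
  simp only [crs_eq, Complex.mul_re, Complex.conj_re, Complex.conj_im, Complex.sub_re,
    Complex.sub_im]
  ring

theorem sin_ang_add (x y z : ℂ) (hy : y ≠ 0) (hz : z ≠ 0) (hyx : y - x ≠ 0) (hzx : z - x ≠ 0) :
    sin (ang (y - x) (z - x) + ang z y) =
      - WW x y z / (‖y‖ * ‖z‖ * (‖y - x‖ * ‖z - x‖)) := by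
  rw [Real.sin_add, sin_ang, sin_ang, cos_ang _ _ hz hy, cos_ang _ _ hyx hzx, div_mul_div_comm,
    div_mul_div_comm, ← add_div]
  have : ‖y - x‖ * ‖z - x‖ * (‖z‖ * ‖y‖) = ‖y‖ * ‖z‖ * (‖y - x‖ * ‖z - x‖) := by ring
  rw [this]
  congr 1
  rw [WW_eq]
  simp only [crs_eq, Complex.mul_re, Complex.conj_re, Complex.conj_im, Complex.sub_re,
    Complex.sub_im]
  ring

theorem pos_of_sin_pos {t : ℝ} (h1 : -pi < t) (h2 : 0 < sin t) : 0 < t := by
  by_contra h
  push Not at h
  exact absurd (Real.sin_nonpos_of_nonpos_of_neg_pi_le h h1.le) (not_le.mpr h2)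

theorem lt_pi_of_sin_pos {t : ℝ} (h1 : t < 2 * pi) (h2 : 0 < sin t) : t < pi := by
  by_contra h
  push Not at h
  have h3 : 0 ≤ sin (t - pi) :=
    Real.sin_nonneg_of_nonneg_of_le_pi (by linarith) (by linarith)
  rw [Real.sin_sub_pi] at h3
  linarith

/-- sum of arguments when the product is `exp (t I)` times a positive number -/
theorem arg_sum (p q r : ℂ) (hp : p ≠ 0) (hq : q ≠ 0) (hr : r ≠ 0) (t : ℝ)
    (h : p * q * r = ((‖p‖ * ‖q‖ * ‖r‖ : ℝ) : ℂ) * Complex.exp (t * Complex.I)) :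
    ∃ n : ℤ, Complex.arg p + Complex.arg q + Complex.arg r = t + n * (2 * pi) := by
  have hp' := Complex.norm_mul_exp_arg_mul_I p
  have hq' := Complex.norm_mul_exp_arg_mul_I q
  have hr' := Complex.norm_mul_exp_arg_mul_I r
  have hne : ((‖p‖ * ‖q‖ * ‖r‖ : ℝ) : ℂ) ≠ 0 := by
    rw [Complex.ofReal_ne_zero]
    have := norm_ne_zero_iff.mpr hp
    have := norm_ne_zero_iff.mpr hq
    have := norm_ne_zero_iff.mpr hr
    positivity
  have h1 : Complex.exp ((Complex.arg p + Complex.arg q + Complex.arg r : ℝ) * Complex.I) =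
      Complex.exp (t * Complex.I) := by
    apply mul_left_cancel₀ hne
    rw [← h]
    conv_rhs => rw [← hp', ← hq', ← hr']
    push_cast
    rw [add_mul, add_mul, Complex.exp_add, Complex.exp_add]
    ring
  rw [Complex.exp_eq_exp_iff_exists_int] at h1
  obtain ⟨n, hn⟩ := h1
  refine ⟨n, ?_⟩
  have h2 : ((Complex.arg p + Complex.arg q + Complex.arg r : ℝ) : ℂ) =
      ((t + n * (2 * pi) : ℝ) : ℂ) := by
    apply mul_right_cancel₀ Complex.I_ne_zero
    rw [hn]
    push_cast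
    ring
  exact_mod_cast h2

end Pool.Agent.MX
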