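import Mathlib
import Pool.Agent.Lib_helper17.MX.Defs
import Pool.Agent.Lib_helper17.MX.Dict

set_option autoImplicit false

open scoped ComplexConjugate
open Real (pi sin cos)

namespace Pool.Agent.MX

theorem mul_conj_sq (x : ℂ) : x * conj x = ((‖x‖ : ℝ) : ℂ) ^ 2 := by
  rw [Complex.mul_conj, Complex.normSq_eq_norm_sq]; push_cast; ring

theorem int_eq_of_lt {n : ℤ} {s : ℝ} {m : ℤ} (h1 : (m - 1 : ℝ) * (2 * pi) < n * (2 * pi))
    (h2 : (n : ℝ) * (2 * pi) < (m + 1) * (2 * pi)) : n = m := by
  have hp : (0 : ℝ) < 2 * pi := by positivity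
  have h3 : (m - 1 : ℝ) < n := lt_of_mul_lt_mul_right h1 hp.le
  have h4 : (n : ℝ) < m + 1 := lt_of_mul_lt_mul_right h2 hp.le
  have h5 : m - 1 < n := by exact_mod_cast h3
  have h6 : n < m + 1 := by exact_mod_cast h4
  omega

/-- angle sum of a positively oriented triangle -/
theorem tri_sum (a b c : ℂ) (h1 : 0 < crs (b - a) (c - a)) (h2 : 0 < crs (c - b) (a - b))
    (h3 : 0 < crs (a - c) (b - c)) :
    ang (b - a) (c - a) + ang (c - b) (a - b) + ang (a - c) (b - c) = pi := by
  have e1 := ne_of_crs _ _ h1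
  have e2 := ne_of_crs _ _ h2
  have e3 := ne_of_crs _ _ h3
  obtain ⟨n, hn⟩ := arg_sum ((c - a) * conj (b - a)) ((a - b) * conj (c - b))
    ((b - c) * conj (a - c)) (mul_ne_zero e1.2 ((map_ne_zero _).mpr e1.1))
    (mul_ne_zero e2.2 ((map_ne_zero _).mpr e2.1)) (mul_ne_zero e3.2 ((map_ne_zero _).mpr e3.1)) pi
    (by
      rw [Complex.exp_pi_mul_I, norm_mul, norm_mul, norm_mul, Complex.norm_conj, Complex.norm_conj,
        Complex.norm_conj, norm_sub_rev c b, norm_sub_rev a c, norm_sub_rev b a]
      have k1 := mul_conj_sq (c - a)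
      have k2 := mul_conj_sq (a - b)
      have k3 := mul_conj_sq (b - c)
      push_cast
      have k : (c - a) * conj (b - a) * ((a - b) * conj (c - b)) * ((b - c) * conj (a - c)) =
        -(((c - a) * conj (c - a)) * ((a - b) * conj (a - b)) * ((b - c) * conj (b - c))) := by
        simp only [map_sub]; ring
      rw [k, k1, k2, k3]
      ring)
  have m1 := ang_mem _ _ h1
  have m2 := ang_mem _ _ h2
  have m3 := ang_mem _ _ h3
  change ang (b - a) (c - a) + ang (c - b) (a - b) + ang (a - c) (b - c) = _ at hn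
  have hn0 : n = 0 := by
    apply int_eq_of_lt (s := 0)
    · push_cast
      linarith [Real.pi_pos]
    · push_cast
      linarith [Real.pi_pos]
  rw [hn, hn0]
  simp

theorem sum_case1 (x y z : ℂ) (h1 : 0 < crs y z) (h2 : 0 < crs z x) (h3 : 0 < crs x y) :
    ang y z + ang z x + ang x y = 2 * pi := by
  have e1 := ne_of_crs _ _ h1
  have e2 := ne_of_crs _ _ h2
  have e3 := ne_of_crs _ _ h3
  obtain ⟨n, hn⟩ := arg_sum (z * conj y) (x * conj z) (y * conj x)
    (mul_ne_zero e1.2 ((map_ne_zero _).mpr e1.1))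
    (mul_ne_zero e2.2 ((map_ne_zero _).mpr e2.1)) (mul_ne_zero e3.2 ((map_ne_zero _).mpr e3.1)) 0
    (by
      rw [norm_mul, norm_mul, norm_mul, Complex.norm_conj, Complex.norm_conj,
        Complex.norm_conj]
      have k1 := mul_conj_sq x
      have k2 := mul_conj_sq y
      have k3 := mul_conj_sq z
      push_cast
      have k : z * conj y * (x * conj z) * (y * conj x) =
        ((x * conj x) * (y * conj y) * (z * conj z)) := by
        ring
      rw [k, k1, k2, k3]
      simp
      ring)
  have m1 := ang_mem _ _ h1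
  have m2 := ang_mem _ _ h2
  have m3 := ang_mem _ _ h3
  change ang y z + ang z x + ang x y = _ at hn
  have hn0 : n = 1 := by
    apply int_eq_of_lt (s := 0)
    · push_cast
      linarith [Real.pi_pos]
    · push_cast
      linarith [Real.pi_pos]
  rw [hn, hn0]
  simp

theorem sum_case2 (x y z : ℂ) (h1 : 0 < crs y z) (h2 : 0 < crs z x) (h3 : 0 < crs y x) :
    ang y z + ang z x = ang y x := by
  have e1 := ne_of_crs _ _ h1
  have e2 := ne_of_crs _ _ h2
  have e3 := ne_of_crs _ _ h3
  obtain ⟨n, hn⟩ := arg_sum (z * conj y) (x * conj z) (y * conj x)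
    (mul_ne_zero e1.2 ((map_ne_zero _).mpr e1.1))
    (mul_ne_zero e2.2 ((map_ne_zero _).mpr e2.1)) (mul_ne_zero e3.1 ((map_ne_zero _).mpr e3.2)) 0
    (by
      rw [norm_mul, norm_mul, norm_mul, Complex.norm_conj, Complex.norm_conj,
        Complex.norm_conj]
      have k1 := mul_conj_sq x
      have k2 := mul_conj_sq y
      have k3 := mul_conj_sq z
      push_cast
      have k : z * conj y * (x * conj z) * (y * conj x) =
        ((x * conj x) * (y * conj y) * (z * conj z)) := by
        ring
      rw [k, k1, k2, k3]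
      simp
      ring)
  have m1 := ang_mem _ _ h1
  have m2 := ang_mem _ _ h2
  have m3 := ang_mem _ _ h3
  have hc : Complex.arg (y * conj x) = - ang y x := by
    have : y * conj x = conj (x * conj y) := by rw [map_mul, Complex.conj_conj]; ring
    rw [this, Complex.arg_conj, if_neg]
    · rfl
    · exact m3.2.ne
  rw [hc] at hn
  change ang y z + ang z x + - ang y x = _ at hn
  have hn0 : n = 0 := by
    apply int_eq_of_lt (s := 0)
    · push_cast
      linarith [Real.pi_pos]
    · push_cast
      linarith [Real.pi_pos]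
  rw [hn0] at hn
  simp at hn
  linarith

end Pool.Agent.MX
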