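import Mathlib
import Pool.Agent.Lib_helper17.MX.Defs
import Pool.Agent.Lib_helper17.MX.Dict
import Pool.Agent.Lib_helper17.MX.Dict2
import Pool.Agent.Lib_helper17.MX.Core

set_option autoImplicit false

open scoped ComplexConjugate
open Real (pi sin cos)

namespace Pool.Agent.MX

noncomputable def bL (b : Fin 3 → ℂ) : Fin 3 → ℝ :=
  ![‖b 1 - b 0‖ * ‖b 2 - b 0‖, ‖b 2 - b 1‖ * ‖b 0 - b 1‖, ‖b 0 - b 2‖ * ‖b 1 - b 2‖]

noncomputable def bA (b : Fin 3 → ℂ) : Fin 3 → ℝ :=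
  ![ang (b 1 - b 0) (b 2 - b 0), ang (b 2 - b 1) (b 0 - b 1), ang (b 0 - b 2) (b 1 - b 2)]

noncomputable def bR (b : Fin 3 → ℂ) (z : ℂ) : Fin 3 → ℝ := fun i => ‖b i - z‖

noncomputable def bD (b : Fin 3 → ℂ) (z : ℂ) : Fin 3 → ℝ :=
  ![crs (b 1 - z) (b 2 - z), crs (b 2 - z) (b 0 - z), crs (b 0 - z) (b 1 - z)]

noncomputable def bRR (b : Fin 3 → ℂ) (z : ℂ) : Fin 3 → ℝ :=
  ![‖b 1 - z‖ * ‖b 2 - z‖, ‖b 2 - z‖ * ‖b 0 - z‖, ‖b 0 - z‖ * ‖b 1 - z‖]

noncomputable def bW (b : Fin 3 → ℂ) (z : ℂ) : ℝ := WW (b 0 - z) (b 1 - z) (b 2 - z)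

noncomputable def cI (b : Fin 3 → ℂ) : Fin 3 → ℝ := fun i => pi - bA b i

noncomputable def cII (b : Fin 3 → ℂ) : Fin 3 → ℝ := ![bA b 0, bA b 1, pi + bA b 2]

theorem crs_T2_0 (b : Fin 3 → ℂ) : crs (b 1 - b 0) (b 2 - b 0) = T2 b := rfl

theorem crs_T2_1 (b : Fin 3 → ℂ) : crs (b 2 - b 1) (b 0 - b 1) = T2 b := by
  rw [← crs_T2_0, crs_eq, crs_eq]
  simp only [Complex.sub_re, Complex.sub_im]; ring

theorem crs_T2_2 (b : Fin 3 → ℂ) : crs (b 0 - b 2) (b 1 - b 2) = T2 b := by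
  rw [← crs_T2_0, crs_eq, crs_eq]
  simp only [Complex.sub_re, Complex.sub_im]; ring

theorem bD_sum (b : Fin 3 → ℂ) (z : ℂ) : ∑ i, bD b z i = T2 b := by
  rw [Fin.sum_univ_three, ← crs_T2_0]
  simp only [bD, Matrix.cons_val_zero, Matrix.cons_val_one, Matrix.cons_val_two, Matrix.tail_cons,
      Matrix.head_cons, crs_eq, Complex.sub_re, Complex.sub_im]
  ring

section
variable {b : Fin 3 → ℂ} (hT : 0 < T2 b)
include hT

theorem bne : b 1 - b 0 ≠ 0 ∧ b 2 - b 0 ≠ 0 ∧ b 2 - b 1 ≠ 0 ∧ b 0 - b 1 ≠ 0 ∧ b 0 - b 2 ≠ 0 ∧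
    b 1 - b 2 ≠ 0 := by
  have h0 := ne_of_crs _ _ (by rw [crs_T2_0]; exact hT : 0 < crs (b 1 - b 0) (b 2 - b 0))
  have h1 := ne_of_crs _ _ (by rw [crs_T2_1]; exact hT : 0 < crs (b 2 - b 1) (b 0 - b 1))
  have h2 := ne_of_crs _ _ (by rw [crs_T2_2]; exact hT : 0 < crs (b 0 - b 2) (b 1 - b 2))
  exact ⟨h0.1, h0.2, h1.1, h1.2, h2.1, h2.2⟩

theorem bL_pos : ∀ i, 0 < bL b i := by
  obtain ⟨h1, h2, h3, h4, h5, h6⟩ := bne hT
  have n1 := norm_pos_iff.mpr h1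
  have n2 := norm_pos_iff.mpr h2
  have n3 := norm_pos_iff.mpr h3
  have n4 := norm_pos_iff.mpr h4
  have n5 := norm_pos_iff.mpr h5
  have n6 := norm_pos_iff.mpr h6
  intro i
  fin_cases i
  · show 0 < ‖b 1 - b 0‖ * ‖b 2 - b 0‖
    positivity
  · show 0 < ‖b 2 - b 1‖ * ‖b 0 - b 1‖
    positivity
  · show 0 < ‖b 0 - b 2‖ * ‖b 1 - b 2‖
    positivity

theorem bA_mem : ∀ i, 0 < bA b i ∧ bA b i < pi := by
  intro i
  fin_cases i
  · exact ang_mem _ _ (by rw [crs_T2_0]; exact hT)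
  · exact ang_mem _ _ (by rw [crs_T2_1]; exact hT)
  · exact ang_mem _ _ (by rw [crs_T2_2]; exact hT)

theorem bA_sum : bA b 0 + bA b 1 + bA b 2 = pi :=
  tri_sum (b 0) (b 1) (b 2) (by rw [crs_T2_0]; exact hT) (by rw [crs_T2_1]; exact hT)
    (by rw [crs_T2_2]; exact hT)

theorem sin_bA : ∀ i, sin (bA b i) = T2 b / bL b i := by
  intro i
  fin_cases i
  · show sin (ang (b 1 - b 0) (b 2 - b 0)) = T2 b / (‖b 1 - b 0‖ * ‖b 2 - b 0‖)
    rw [sin_ang, crs_T2_0]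
  · show sin (ang (b 2 - b 1) (b 0 - b 1)) = T2 b / (‖b 2 - b 1‖ * ‖b 0 - b 1‖)
    rw [sin_ang, crs_T2_1]
  · show sin (ang (b 0 - b 2) (b 1 - b 2)) = T2 b / (‖b 0 - b 2‖ * ‖b 1 - b 2‖)
    rw [sin_ang, crs_T2_2]

end

theorem WW_rot (x y z : ℂ) : WW y z x = WW x y z := by unfold WW; ring

theorem bW_expand (b : Fin 3 → ℂ) (z : ℂ) :
    bW b z = bD b z 0 * bR b z 0 ^ 2 + bD b z 1 * bR b z 1 ^ 2 + bD b z 2 * bR b z 2 ^ 2 := rfl

/-- `sin (α_i - A_i)` for the three indices -/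
theorem sin_sub_bA (b : Fin 3 → ℂ) (z : ℂ) (hT : 0 < T2 b) (hz : ∀ j, b j - z ≠ 0) :
    sin (ang (b 1 - z) (b 2 - z) - bA b 0) = bW b z / (bRR b z 0 * bL b 0) ∧
    sin (ang (b 2 - z) (b 0 - z) - bA b 1) = bW b z / (bRR b z 1 * bL b 1) ∧
    sin (ang (b 0 - z) (b 1 - z) - bA b 2) = bW b z / (bRR b z 2 * bL b 2) := by
  obtain ⟨h1, h2, h3, h4, h5, h6⟩ := bne hT
  refine ⟨?_, ?_, ?_⟩
  · have := sin_ang_sub (b 0 - z) (b 1 - z) (b 2 - z) (hz 1) (hz 2)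
      (by rw [sub_sub_sub_cancel_right]; exact h1) (by rw [sub_sub_sub_cancel_right]; exact h2)
    rw [sub_sub_sub_cancel_right, sub_sub_sub_cancel_right] at this
    exact this
  · have := sin_ang_sub (b 1 - z) (b 2 - z) (b 0 - z) (hz 2) (hz 0)
      (by rw [sub_sub_sub_cancel_right]; exact h3) (by rw [sub_sub_sub_cancel_right]; exact h4)
    rw [sub_sub_sub_cancel_right, sub_sub_sub_cancel_right, WW_rot] at this
    exact this
  · have := sin_ang_sub (b 2 - z) (b 0 - z) (b 1 - z) (hz 0) (hz 1)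
      (by rw [sub_sub_sub_cancel_right]; exact h5) (by rw [sub_sub_sub_cancel_right]; exact h6)
    rw [sub_sub_sub_cancel_right, sub_sub_sub_cancel_right, WW_rot, WW_rot] at this
    exact this

theorem sin_add_bA (b : Fin 3 → ℂ) (z : ℂ) (hT : 0 < T2 b) (hz : ∀ j, b j - z ≠ 0) :
    sin (bA b 2 + ang (b 1 - z) (b 0 - z)) = - bW b z / (bRR b z 2 * bL b 2) := by
  obtain ⟨h1, h2, h3, h4, h5, h6⟩ := bne hT
  have := sin_ang_add (b 2 - z) (b 0 - z) (b 1 - z) (hz 0) (hz 1)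
      (by rw [sub_sub_sub_cancel_right]; exact h5) (by rw [sub_sub_sub_cancel_right]; exact h6)
  rw [sub_sub_sub_cancel_right, sub_sub_sub_cancel_right, WW_rot, WW_rot] at this
  exact this

theorem bRR_pos (b : Fin 3 → ℂ) (z : ℂ) (hz : ∀ j, b j - z ≠ 0) : ∀ i, 0 < bRR b z i := by
  have n0 := norm_pos_iff.mpr (hz 0)
  have n1 := norm_pos_iff.mpr (hz 1)
  have n2 := norm_pos_iff.mpr (hz 2)
  intro i
  fin_cases i
  · show 0 < ‖b 1 - z‖ * ‖b 2 - z‖
    positivity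
  · show 0 < ‖b 2 - z‖ * ‖b 0 - z‖
    positivity
  · show 0 < ‖b 0 - z‖ * ‖b 1 - z‖
    positivity

theorem zdata_case1 (b : Fin 3 → ℂ) (z : ℂ) (hT : 0 < T2 b) (hz : ∀ j, b j - z ≠ 0)
    (hD : ∀ i, 0 < bD b z i) (hW : 0 < bW b z) :
    ∃ t, ZData (T2 b) (bL b) (cI b) (bR b z) (bD b z) t (bRR b z) (bW b z) := by
  have d0 : 0 < crs (b 1 - z) (b 2 - z) := hD 0
  have d1 : 0 < crs (b 2 - z) (b 0 - z) := hD 1
  have d2 : 0 < crs (b 0 - z) (b 1 - z) := hD 2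
  have a0 := ang_mem _ _ d0
  have a1 := ang_mem _ _ d1
  have a2 := ang_mem _ _ d2
  have hs := sum_case1 (b 0 - z) (b 1 - z) (b 2 - z) d0 d1 d2
  have hA := bA_mem hT
  have hL := bL_pos hT
  have hRR := bRR_pos b z hz
  obtain ⟨s0, s1, s2⟩ := sin_sub_bA b z hT hz
  obtain ⟨al, hal⟩ : ∃ al : Fin 3 → ℝ, al = ![ang (b 1 - z) (b 2 - z), ang (b 2 - z) (b 0 - z),
    ang (b 0 - z) (b 1 - z)] := ⟨_, rfl⟩
  have hal0 : ∀ i, 0 < al i ∧ al i < pi := by
    intro i; rw [hal]; fin_cases i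
    · exact a0
    · exact a1
    · exact a2
  have hsin : ∀ i, sin (al i - bA b i) = bW b z / (bRR b z i * bL b i) := by
    intro i; rw [hal]; fin_cases i
    · exact s0
    · exact s1
    · exact s2
  have hpos : ∀ i, 0 < sin (al i - bA b i) := by
    intro i; rw [hsin]
    have := hRR i
    have := hL i
    positivity
  have hlt : ∀ i, bA b i < al i := by
    intro i
    have := pos_of_sin_pos (t := al i - bA b i) (by linarith [(hal0 i).1, (hA i).2]) (hpos i)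
    linarith
  refine ⟨fun i => pi - al i, ?_⟩
  constructor
  · exact hT
  · exact hL
  · rw [Fin.sum_univ_three]
    have := bA_sum hT
    simp only [cI]
    linarith
  · intro i; exact norm_pos_iff.mpr (hz i)
  · rfl
  · rfl
  · rfl
  · intro i; exact (hD i).ne'
  · exact hW.ne'
  · exact bD_sum b z
  · rfl
  · intro i
    have := hal0 i
    have := hlt i
    simp only [cI]
    constructor <;> linarith
  · rw [Fin.sum_univ_three]
    have : al 0 + al 1 + al 2 = 2 * pi := by rw [hal]; exact hs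
    linarith
  · intro i
    rw [Real.sin_pi_sub, abs_of_pos (hD i), hal]
    fin_cases i
    · exact sin_ang _ _
    · exact sin_ang _ _
    · exact sin_ang _ _
  · intro i
    have : cI b i - (pi - al i) = al i - bA b i := by simp only [cI]; ring
    rw [this, hsin, abs_of_pos hW]
  · intro i
    simp only [cI]
    rw [Real.sin_pi_sub, sin_bA hT, abs_of_pos (hD i)]
    ring

theorem zdata_case2 (b : Fin 3 → ℂ) (z : ℂ) (hT : 0 < T2 b) (hz : ∀ j, b j - z ≠ 0)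
    (hD0 : 0 < bD b z 0) (hD1 : 0 < bD b z 1) (hD2 : bD b z 2 < 0) (hW : bW b z < 0) :
    ∃ t, ZData (T2 b) (bL b) (cII b) (bR b z) (bD b z) t (bRR b z) (bW b z) := by
  have d0 : 0 < crs (b 1 - z) (b 2 - z) := hD0
  have d1 : 0 < crs (b 2 - z) (b 0 - z) := hD1
  have d2' : crs (b 0 - z) (b 1 - z) < 0 := hD2
  have d2 : 0 < crs (b 1 - z) (b 0 - z) := by rw [crs_swap]; linarith
  have a0 := ang_mem _ _ d0
  have a1 := ang_mem _ _ d1
  have a2 := ang_mem _ _ d2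
  have hs := sum_case2 (b 0 - z) (b 1 - z) (b 2 - z) d0 d1 d2
  have hA := bA_mem hT
  have hL := bL_pos hT
  have hRR := bRR_pos b z hz
  have hAs := bA_sum hT
  obtain ⟨s0, s1, _⟩ := sin_sub_bA b z hT hz
  have s2 := sin_add_bA b z hT hz
  have hWn : 0 < - bW b z := by linarith
  have q0 : 0 < sin (bA b 0 - ang (b 1 - z) (b 2 - z)) := by
    rw [← neg_sub, Real.sin_neg, s0, ← neg_div]
    have := hRR 0; have := hL 0; positivity
  have q1 : 0 < sin (bA b 1 - ang (b 2 - z) (b 0 - z)) := by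
    rw [← neg_sub, Real.sin_neg, s1, ← neg_div]
    have := hRR 1; have := hL 1; positivity
  have q2 : 0 < sin (bA b 2 + ang (b 1 - z) (b 0 - z)) := by
    rw [s2]
    have := hRR 2; have := hL 2; positivity
  have l0 := pos_of_sin_pos (t := bA b 0 - ang (b 1 - z) (b 2 - z))
    (by linarith [(hA 0).1]) q0
  have l1 := pos_of_sin_pos (t := bA b 1 - ang (b 2 - z) (b 0 - z))
    (by linarith [(hA 1).1]) q1
  refine ⟨![ang (b 1 - z) (b 2 - z), ang (b 2 - z) (b 0 - z), pi - ang (b 1 - z) (b 0 - z)], ?_⟩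
  constructor
  · exact hT
  · exact hL
  · rw [Fin.sum_univ_three]
    show bA b 0 + bA b 1 + (pi + bA b 2) = _
    linarith
  · intro i; exact norm_pos_iff.mpr (hz i)
  · rfl
  · rfl
  · rfl
  · intro i; fin_cases i
    · exact hD0.ne'
    · exact hD1.ne'
    · exact hD2.ne
  · exact hW.ne
  · exact bD_sum b z
  · rfl
  · intro i; fin_cases i
    · show 0 < ang (b 1 - z) (b 2 - z) ∧ ang (b 1 - z) (b 2 - z) < bA b 0
      constructor <;> linarith
    · show 0 < ang (b 2 - z) (b 0 - z) ∧ ang (b 2 - z) (b 0 - z) < bA b 1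
      constructor <;> linarith
    · show 0 < pi - ang (b 1 - z) (b 0 - z) ∧ pi - ang (b 1 - z) (b 0 - z) < pi + bA b 2
      constructor <;> linarith [(hA 2).1]
  · rw [Fin.sum_univ_three]
    show ang (b 1 - z) (b 2 - z) + ang (b 2 - z) (b 0 - z) + (pi - ang (b 1 - z) (b 0 - z)) = pi
    linarith
  · intro i; fin_cases i
    · show sin (ang (b 1 - z) (b 2 - z)) = |bD b z 0| / bRR b z 0
      rw [abs_of_pos hD0]; exact sin_ang _ _
    · show sin (ang (b 2 - z) (b 0 - z)) = |bD b z 1| / bRR b z 1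
      rw [abs_of_pos hD1]; exact sin_ang _ _
    · show sin (pi - ang (b 1 - z) (b 0 - z)) = |bD b z 2| / bRR b z 2
      rw [abs_of_neg hD2, Real.sin_pi_sub, sin_ang]
      show crs (b 1 - z) (b 0 - z) / _ = - crs (b 0 - z) (b 1 - z) / _
      rw [crs_swap (b 1 - z) (b 0 - z), neg_neg, mul_comm]
      rfl
  · intro i; fin_cases i
    · show sin (bA b 0 - ang (b 1 - z) (b 2 - z)) = |bW b z| / (bRR b z 0 * bL b 0)
      rw [abs_of_neg hW, ← neg_sub, Real.sin_neg, s0, neg_div]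
    · show sin (bA b 1 - ang (b 2 - z) (b 0 - z)) = |bW b z| / (bRR b z 1 * bL b 1)
      rw [abs_of_neg hW, ← neg_sub, Real.sin_neg, s1, neg_div]
    · show sin (pi + bA b 2 - (pi - ang (b 1 - z) (b 0 - z))) = |bW b z| / (bRR b z 2 * bL b 2)
      have : pi + bA b 2 - (pi - ang (b 1 - z) (b 0 - z)) = bA b 2 + ang (b 1 - z) (b 0 - z) := by
        ring
      rw [this, s2, abs_of_neg hW]
  · intro i; fin_cases i
    · show bD b z 0 * sin (bA b 0) = |bD b z 0| * T2 b / bL b 0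
      rw [abs_of_pos hD0, sin_bA hT]; ring
    · show bD b z 1 * sin (bA b 1) = |bD b z 1| * T2 b / bL b 1
      rw [abs_of_pos hD1, sin_bA hT]; ring
    · show bD b z 2 * sin (pi + bA b 2) = |bD b z 2| * T2 b / bL b 2
      rw [abs_of_neg hD2, add_comm, Real.sin_add_pi, sin_bA hT]; ring

end Pool.Agent.MX
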