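import Mathlib
import Pool.Prelude.Def_F_d420a142
import Pool.Agent.Lib_helper34.MX.Calc
import Pool.Agent.Lib_helper17.MX.Defs

set_option autoImplicit false

open N62f3cee0
open scoped Gradient RealInnerProductSpace ComplexConjugate

namespace Pool.Agent.MX

/-- linear map `ℂ → E3` attached to an orthonormal pair -/
noncomputable def lin (u v : E3) (z : ℂ) : E3 := z.re • u + z.im • v

section
variable {u v : E3}

theorem lin_add (z w : ℂ) : lin u v (z + w) = lin u v z + lin u v w := by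
  simp only [lin, Complex.add_re, Complex.add_im, add_smul]; abel

theorem lin_sub (z w : ℂ) : lin u v (z - w) = lin u v z - lin u v w := by
  simp only [lin, Complex.sub_re, Complex.sub_im, sub_smul]; abel

theorem lin_smul (r : ℝ) (z : ℂ) : lin u v ((r : ℂ) * z) = r • lin u v z := by
  simp only [lin, Complex.mul_re, Complex.mul_im, Complex.ofReal_re, Complex.ofReal_im, zero_mul,
    sub_zero, add_zero, smul_add, smul_smul]

theorem lin_zero : lin u v 0 = 0 := by simp [lin]

theorem lin_sum {ι : Type*} (s : Finset ι) (f : ι → ℂ) :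
    lin u v (∑ i ∈ s, f i) = ∑ i ∈ s, lin u v (f i) := by
  classical
  induction s using Finset.induction_on with
  | empty => simp [lin_zero]
  | insert a s ha ih => rw [Finset.sum_insert ha, Finset.sum_insert ha, lin_add, ih]

theorem inner_lin (hu : ⟪u, u⟫ = 1) (hv : ⟪v, v⟫ = 1) (huv : ⟪u, v⟫ = 0) (z w : ℂ) :
    ⟪lin u v z, lin u v w⟫ = (z * conj w).re := by
  have hvu : ⟪v, u⟫ = 0 := by rw [real_inner_comm]; exact huv
  simp only [lin, inner_add_left, inner_add_right, inner_smul_left, inner_smul_right, hu, hv, huv,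
    hvu, Complex.mul_re, Complex.conj_re, Complex.conj_im]
  simp
  ring

theorem norm_lin (hu : ⟪u, u⟫ = 1) (hv : ⟪v, v⟫ = 1) (huv : ⟪u, v⟫ = 0) (z : ℂ) :
    ‖lin u v z‖ = ‖z‖ := by
  have h1 : ‖lin u v z‖ ^ 2 = ‖z‖ ^ 2 := by
    rw [← real_inner_self_eq_norm_sq, inner_lin hu hv huv, Complex.mul_conj, Complex.ofReal_re,
      Complex.normSq_eq_norm_sq]
  exact (pow_left_inj₀ (norm_nonneg _) (norm_nonneg _) two_ne_zero).mp h1

theorem lin_injective (hu : ⟪u, u⟫ = 1) (hv : ⟪v, v⟫ = 1) (huv : ⟪u, v⟫ = 0) :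
    Function.Injective (lin u v) := by
  intro z w h
  have h1 : ‖lin u v (z - w)‖ = 0 := by rw [lin_sub, h, sub_self, norm_zero]
  rw [norm_lin hu hv huv, norm_eq_zero, sub_eq_zero] at h1
  exact h1

end

/-- the planar chart -/
noncomputable def chart (p u v : E3) (z : ℂ) : E3 := p + lin u v z

section
variable {p u v : E3} (hu : ⟪u, u⟫ = 1) (hv : ⟪v, v⟫ = 1) (huv : ⟪u, v⟫ = 0)
include hu hv huv

theorem norm_chart_sub (z w : ℂ) : ‖chart p u v z - chart p u v w‖ = ‖z - w‖ := by
  unfold chart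
  rw [add_sub_add_left_eq_sub, ← lin_sub, norm_lin hu hv huv]

theorem chart_injective : Function.Injective (chart p u v) := by
  intro z w h
  unfold chart at h
  exact lin_injective hu hv huv (add_left_cancel h)

theorem gradV_chart (q : Fin 3 → ℝ) (b : Fin 3 → ℂ) (z : ℂ) :
    gradV q (fun j => chart p u v (b j)) (chart p u v z) = lin u v (PGrad q b z) := by
  unfold gradV PGrad
  rw [lin_sum]
  refine Finset.sum_congr rfl fun j _ => ?_
  rw [lin_smul, norm_chart_sub hu hv huv, norm_sub_rev]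
  congr 1
  unfold chart
  rw [add_sub_add_left_eq_sub, ← lin_sub]

theorem hessV_chart (q : Fin 3 → ℝ) (b : Fin 3 → ℂ) (z t : ℂ) (hz : ∀ j, z ≠ b j) (w : E3) :
    hessV q (fun j => chart p u v (b j)) (chart p u v z) (lin u v t) w =
      ⟪lin u v (((PT q b z / 2 : ℝ) : ℂ) * t + ((3 / 2 : ℝ) : ℂ) * (PM q b z * conj t)), w⟫ := by
  unfold hessV PT PM
  have key : ((( ∑ j, q j / ‖b j - z‖ ^ 3) / 2 : ℝ) : ℂ) * t +
      ((3 / 2 : ℝ) : ℂ) * ((∑ j, ((q j / ‖b j - z‖ ^ 5 : ℝ) : ℂ) * (b j - z) ^ 2) * conj t) =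
      ∑ j, (((q j * (3 * ((z - b j) * conj t).re / ‖z - b j‖ ^ 5) : ℝ) : ℂ) * (z - b j) +
        ((-(q j / ‖z - b j‖ ^ 3) : ℝ) : ℂ) * t) := by
    rw [Finset.sum_div, Complex.ofReal_sum, Finset.sum_mul, Finset.sum_mul, Finset.mul_sum,
      ← Finset.sum_add_distrib]
    refine Finset.sum_congr rfl fun j _ => ?_
    have hne : z - b j ≠ 0 := sub_ne_zero.mpr (hz j)
    have hn : ‖z - b j‖ ≠ 0 := norm_ne_zero_iff.mpr hne
    have hnc : ((‖z - b j‖ : ℝ) : ℂ) ≠ 0 := Complex.ofReal_ne_zero.mpr hn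
    rw [norm_sub_rev (b j) z]
    have hre : ((((z - b j) * conj t).re : ℝ) : ℂ) =
        ((z - b j) * conj t + conj (z - b j) * t) / 2 := by
      rw [Complex.re_eq_add_conj]
      simp [map_mul]
    have hns : (z - b j) * conj (z - b j) = ((‖z - b j‖ : ℝ) : ℂ) ^ 2 := by
      rw [Complex.mul_conj, Complex.normSq_eq_norm_sq]; push_cast; ring
    push_cast
    rw [hre]
    have h5 : (‖z - b j‖ : ℂ) ^ 5 ≠ 0 := pow_ne_zero 5 hnc
    have h3 : (‖z - b j‖ : ℂ) ^ 3 ≠ 0 := pow_ne_zero 3 hnc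
    field_simp
    have e1 : (z - b j) * ((z - b j) * conj t + conj (z - b j) * t) =
        (z - b j) ^ 2 * conj t + ((z - b j) * conj (z - b j)) * t := by ring
    linear_combination (3 * (q j : ℂ) * t) * (-hns)
  rw [key, lin_sum, sum_inner]
  refine Finset.sum_congr rfl fun j _ => ?_
  rw [lin_add, lin_smul, lin_smul, inner_add_left, inner_smul_left, inner_smul_left]
  have e1 : chart p u v z - chart p u v (b j) = lin u v (z - b j) := by
    unfold chart
    rw [add_sub_add_left_eq_sub, ← lin_sub]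
  simp only [e1, norm_lin hu hv huv, inner_lin hu hv huv]
  simp
  ring

theorem nondeg_chart (q : Fin 3 → ℝ) (b : Fin 3 → ℂ) (z : ℂ) (hz : ∀ j, z ≠ b j)
    (h : HasNondegenerateHessianAt (potential q (fun j => chart p u v (b j))) (chart p u v z)) :
    PT q b z ^ 2 ≠ 9 * ‖PM q b z‖ ^ 2 := by
  have hx : ∀ j, chart p u v z ≠ chart p u v (b j) := fun j hh =>
    hz j (chart_injective hu hv huv hh)
  rw [nondeg_iff _ _ _ hx] at h
  intro heq
  -- find a kernel vector
  obtain ⟨t, ht0, ht⟩ : ∃ t : ℂ, t ≠ 0 ∧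
      ((PT q b z / 2 : ℝ) : ℂ) * t + ((3 / 2 : ℝ) : ℂ) * (PM q b z * conj t) = 0 := by
    by_cases hM : PM q b z = 0
    · refine ⟨1, one_ne_zero, ?_⟩
      rw [hM] at heq ⊢
      have : PT q b z = 0 := by
        have : PT q b z ^ 2 = 0 := by rw [heq]; simp
        exact pow_eq_zero_iff two_ne_zero |>.mp this
      rw [this]; simp
    · have hMn : ‖PM q b z‖ ≠ 0 := norm_ne_zero_iff.mpr hM
      have hT : PT q b z ≠ 0 := by
        intro h0
        rw [h0] at heq
        have : ‖PM q b z‖ ^ 2 = 0 := by nlinarith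
        exact hMn (pow_eq_zero_iff two_ne_zero |>.mp this)
      have hTc : ((PT q b z : ℝ) : ℂ) ≠ 0 := Complex.ofReal_ne_zero.mpr hT
      obtain ⟨t, ht⟩ := IsAlgClosed.exists_pow_nat_eq (-3 * PM q b z / (PT q b z : ℂ))
        (show 0 < 2 by norm_num)
      have hn2 : ‖t‖ ^ 2 = 1 := by
        rw [← norm_pow, ht, norm_div, norm_mul, norm_neg, Complex.norm_real]
        have h3 : ‖(3 : ℂ)‖ = 3 := by simp
        rw [h3, Real.norm_eq_abs]
        have h4 : |PT q b z| = 3 * ‖PM q b z‖ := by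
          have h5 : |PT q b z| ^ 2 = (3 * ‖PM q b z‖) ^ 2 := by rw [sq_abs, heq]; ring
          exact (pow_left_inj₀ (abs_nonneg _) (by positivity) two_ne_zero).mp h5
        rw [h4, div_self]
        positivity
      have ht0 : t ≠ 0 := by
        rintro rfl
        simp at hn2
      refine ⟨t, ht0, ?_⟩
      have hcc : t * conj t = 1 := by
        rw [Complex.mul_conj, Complex.normSq_eq_norm_sq, hn2, Complex.ofReal_one]
      have h6 : t * (((PT q b z / 2 : ℝ) : ℂ) * t +
          ((3 / 2 : ℝ) : ℂ) * (PM q b z * conj t)) = 0 := by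
        have h7 : (PT q b z : ℂ) * t ^ 2 = -3 * PM q b z := by
          rw [ht]; field_simp
        push_cast
        linear_combination (1 / 2) * h7 + (3 / 2) * PM q b z * hcc
      exact (mul_eq_zero.mp h6).resolve_left ht0
  obtain ⟨w, hw⟩ := h (lin u v t) (by
    intro h0
    rw [← lin_zero (u := u) (v := v)] at h0
    exact ht0 (lin_injective hu hv huv h0))
  apply hw
  rw [hessV_chart hu hv huv q b z t hz w, ht, lin_zero, inner_zero_left]

end

end Pool.Agent.MX
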