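import Mathlib
import Pool.Prelude.Def_F_d420a142
import Pool.Agent.Lib_helper34.MX.Calc
import Pool.Agent.Lib_helper17.MX.Defs
import Pool.Agent.Lib_helper17.MX.Reduce

set_option autoImplicit false

open N62f3cee0
open scoped Gradient RealInnerProductSpace ComplexConjugate

namespace Pool.Agent.MX

theorem exists_chart (a : Fin 3 → E3) (hcol : ¬ Collinear ℝ (Set.range a)) :
    ∃ (p u v : E3) (b : Fin 3 → ℂ), ⟪u, u⟫ = 1 ∧ ⟪v, v⟫ = 1 ∧ ⟪u, v⟫ = 0 ∧
      (a = fun j => chart p u v (b j)) ∧ 0 < T2 b := by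
  obtain ⟨e1, he1⟩ : ∃ e1, e1 = a 1 - a 0 := ⟨_, rfl⟩
  obtain ⟨e2, he2⟩ : ∃ e2, e2 = a 2 - a 0 := ⟨_, rfl⟩
  have h1 : e1 ≠ 0 := by
    intro h0
    apply hcol
    rw [collinear_iff_of_mem (p₀ := a 0) (Set.mem_range_self 0)]
    refine ⟨e2, ?_⟩
    rintro _ ⟨j, rfl⟩
    fin_cases j
    · exact ⟨0, by simp⟩
    · refine ⟨0, ?_⟩
      have : a 1 = a 0 := by rw [← sub_eq_zero, ← he1, h0]
      simp [this]
    · exact ⟨1, by simp [he2]⟩
  have hn1 : ‖e1‖ ≠ 0 := norm_ne_zero_iff.mpr h1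
  obtain ⟨u, hu⟩ : ∃ u : E3, u = (1 / ‖e1‖) • e1 := ⟨_, rfl⟩
  have hu1 : ⟪u, u⟫ = 1 := by
    rw [hu, inner_smul_left, inner_smul_right, real_inner_self_eq_norm_sq]
    simp; field_simp
  have he1u : e1 = ‖e1‖ • u := by
    rw [hu, smul_smul, mul_one_div_cancel hn1, one_smul]
  obtain ⟨w, hw⟩ : ∃ w : E3, w = e2 - ⟪e2, u⟫ • u := ⟨_, rfl⟩
  have hwu : ⟪w, u⟫ = 0 := by
    rw [hw, inner_sub_left, inner_smul_left, hu1]; simp
  have h2 : w ≠ 0 := by
    intro h0
    apply hcol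
    rw [collinear_iff_of_mem (p₀ := a 0) (Set.mem_range_self 0)]
    refine ⟨u, ?_⟩
    rintro _ ⟨j, rfl⟩
    fin_cases j
    · exact ⟨0, by simp⟩
    · refine ⟨‖e1‖, ?_⟩
      show a 1 = ‖e1‖ • u + a 0
      rw [← he1u, he1]; abel
    · refine ⟨⟪e2, u⟫, ?_⟩
      show a 2 = ⟪e2, u⟫ • u + a 0
      rw [hw, sub_eq_zero] at h0
      rw [← h0, he2]; abel
  have hn2 : ‖w‖ ≠ 0 := norm_ne_zero_iff.mpr h2
  obtain ⟨v, hv⟩ : ∃ v : E3, v = (1 / ‖w‖) • w := ⟨_, rfl⟩
  have hv1 : ⟪v, v⟫ = 1 := by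
    rw [hv, inner_smul_left, inner_smul_right, real_inner_self_eq_norm_sq]
    simp; field_simp
  have huv : ⟪u, v⟫ = 0 := by
    rw [hv, inner_smul_right, real_inner_comm, hwu, mul_zero]
  have hwv : w = ‖w‖ • v := by
    rw [hv, smul_smul, mul_one_div_cancel hn2, one_smul]
  refine ⟨a 0, u, v, ![0, (‖e1‖ : ℂ), ⟨⟪e2, u⟫, ‖w‖⟩], hu1, hv1, huv, ?_, ?_⟩
  · funext j
    fin_cases j
    · simp [chart, lin]
    · show a 1 = a 0 + lin u v (‖e1‖ : ℂ)
      have : lin u v (‖e1‖ : ℂ) = e1 := by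
        simp only [lin, Complex.ofReal_re, Complex.ofReal_im, zero_smul, add_zero]
        exact he1u.symm
      rw [this, he1]; abel
    · show a 2 = a 0 + lin u v ⟨⟪e2, u⟫, ‖w‖⟩
      have : lin u v ⟨⟪e2, u⟫, ‖w‖⟩ = e2 := by
        simp only [lin]
        rw [← hwv, hw]; abel
      rw [this, he2]; abel
  · simp only [T2, Matrix.cons_val_zero, Matrix.cons_val_one, Matrix.cons_val_two, Matrix.tail_cons,
      Matrix.head_cons, sub_zero, Complex.conj_ofReal, Complex.mul_im, Complex.ofReal_re,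
      Complex.ofReal_im, zero_mul, add_zero]
    positivity

/-- planar kernel fact -/
theorem planar_weights (b : Fin 3 → ℂ) (z : ℂ) (w : Fin 3 → ℝ)
    (h : ∑ j, ((w j : ℝ) : ℂ) * (b j - z) = 0) :
    w 0 * T2 b = (∑ j, w j) * (conj (b 1 - z) * (b 2 - z)).im ∧
    w 1 * T2 b = (∑ j, w j) * (conj (b 2 - z) * (b 0 - z)).im ∧
    w 2 * T2 b = (∑ j, w j) * (conj (b 0 - z) * (b 1 - z)).im := by
  rw [Fin.sum_univ_three] at h
  have hre := congrArg Complex.re h
  have him := congrArg Complex.im h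
  simp only [Complex.add_re, Complex.add_im, Complex.mul_re, Complex.mul_im, Complex.ofReal_re,
    Complex.ofReal_im, Complex.sub_re, Complex.sub_im, Complex.zero_re, Complex.zero_im] at hre him
  rw [Fin.sum_univ_three]
  simp only [T2, Complex.mul_im, Complex.conj_re, Complex.conj_im, Complex.sub_re, Complex.sub_im]
  refine ⟨?_, ?_, ?_⟩
  · linear_combination -((b 2).im - (b 1).im) * hre + ((b 2).re - (b 1).re) * him
  · linear_combination -((b 0).im - (b 2).im) * hre + ((b 0).re - (b 2).re) * him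
  · linear_combination -((b 1).im - (b 0).im) * hre + ((b 1).re - (b 0).re) * him

theorem equilibria_chart (p u v : E3) (hu : ⟪u, u⟫ = 1) (hv : ⟪v, v⟫ = 1) (huv : ⟪u, v⟫ = 0)
    (q : Fin 3 → ℝ) (hq : ∀ j, q j ≠ 0) (b : Fin 3 → ℂ) (hT : T2 b ≠ 0) :
    equilibria q (fun j => chart p u v (b j)) = chart p u v '' {z | PEq q b z} := by
  ext x
  rw [mem_equilibria_iff]
  constructor
  · rintro ⟨hx, hg⟩
    obtain ⟨w, hw⟩ : ∃ w : Fin 3 → ℝ, w = fun j => q j / ‖x - chart p u v (b j)‖ ^ 3 := ⟨_, rfl⟩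
    have hwj : ∀ j, w j ≠ 0 := by
      intro j
      rw [hw]
      have : ‖x - chart p u v (b j)‖ ≠ 0 := norm_ne_zero_iff.mpr (sub_ne_zero.mpr (hx j))
      exact div_ne_zero (hq j) (pow_ne_zero 3 this)
    have hg' : ∑ j, w j • (chart p u v (b j) - x) = 0 := by
      rw [hw]; exact hg
    -- sum of weights times chart
    have hsum : (∑ j, w j) • (x - p) = lin u v (∑ j, ((w j : ℝ) : ℂ) * b j) := by
      have e1 : ∑ j, w j • (chart p u v (b j) - x) =
          lin u v (∑ j, ((w j : ℝ) : ℂ) * b j) - (∑ j, w j) • (x - p) := by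
        rw [lin_sum, Finset.sum_smul, ← Finset.sum_sub_distrib]
        refine Finset.sum_congr rfl fun j _ => ?_
        rw [lin_smul, ← smul_sub]
        congr 1
        unfold chart
        abel
      rw [e1, sub_eq_zero] at hg'
      exact hg'.symm
    by_cases hW : ∑ j, w j = 0
    · exfalso
      rw [hW, zero_smul] at hsum
      have h0 : ∑ j, ((w j : ℝ) : ℂ) * b j = 0 := by
        apply lin_injective hu hv huv
        rw [← hsum, lin_zero]
      have h1 := (planar_weights b 0 w (by simpa using h0)).1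
      rw [hW, zero_mul] at h1
      exact (mul_ne_zero (hwj 0) hT) h1
    · obtain ⟨z, hz⟩ : ∃ z : ℂ, z = ((1 / (∑ j, w j) : ℝ) : ℂ) * ∑ j, ((w j : ℝ) : ℂ) * b j :=
        ⟨_, rfl⟩
      have hxz : x = chart p u v z := by
        unfold chart
        rw [hz, lin_smul, ← hsum, smul_smul, one_div_mul_cancel hW, one_smul]
        abel
      refine ⟨z, ⟨?_, ?_⟩, hxz.symm⟩
      · intro j hj
        apply hx j
        rw [hxz, hj]
      · apply lin_injective hu hv huv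
        rw [← gradV_chart (p := p) hu hv huv, lin_zero, ← hxz]
        exact hg
  · rintro ⟨z, ⟨hz, hg⟩, rfl⟩
    refine ⟨fun j hj => hz j (chart_injective hu hv huv hj), ?_⟩
    rw [gradV_chart hu hv huv, hg, lin_zero]

end Pool.Agent.MX
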