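import Mathlib
import Pool.Prelude.Def_F_d420a142
import Pool.Agent.Lib_helper34.MX.Calc
import Pool.Agent.Lib_helper17.MX.Defs
import Pool.Agent.Lib_helper17.MX.Reduce
import Pool.Agent.Lib_helper17.MX.Frame
import Pool.Agent.Lib_helper17.MX.Dict
import Pool.Agent.Lib_helper17.MX.Dict2
import Pool.Agent.Lib_helper17.MX.Core
import Pool.Agent.Lib_helper17.MX.Build

set_option autoImplicit false

open scoped ComplexConjugate
open Real (pi sin cos)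

namespace Pool.Agent.MX

/-- at a planar equilibrium `q_i = κ D_i r_i^3` -/
theorem peq_weights (q : Fin 3 → ℝ) (b : Fin 3 → ℂ) (z : ℂ) (hT : T2 b ≠ 0) (hq : ∀ j, q j ≠ 0)
    (hz : PEq q b z) : ∃ κ : ℝ, κ ≠ 0 ∧ ∀ j, q j = κ * bD b z j * bR b z j ^ 3 := by
  obtain ⟨hne, hg⟩ := hz
  have hr : ∀ j, ‖b j - z‖ ≠ 0 := fun j =>
    norm_ne_zero_iff.mpr (sub_ne_zero.mpr (hne j).symm)
  obtain ⟨w, hw⟩ : ∃ w : Fin 3 → ℝ, w = fun j => q j / ‖b j - z‖ ^ 3 := ⟨_, rfl⟩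
  have hg' : ∑ j, ((w j : ℝ) : ℂ) * (b j - z) = 0 := by rw [hw]; exact hg
  have hwj : ∀ j, w j ≠ 0 := fun j => by
    rw [hw]; exact div_ne_zero (hq j) (pow_ne_zero 3 (hr j))
  obtain ⟨h0, h1, h2⟩ := planar_weights b z w hg'
  have hall : ∀ j, w j * T2 b = (∑ j, w j) * bD b z j := by
    intro j; fin_cases j
    · exact h0
    · exact h1
    · exact h2
  have hS : ∑ j, w j ≠ 0 := by
    intro hS
    have := hall 0
    rw [hS, zero_mul] at this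
    exact mul_ne_zero (hwj 0) hT this
  refine ⟨(∑ j, w j) / T2 b, div_ne_zero hS hT, fun j => ?_⟩
  have h3 : w j = (∑ j, w j) / T2 b * bD b z j := by
    field_simp
    exact hall j
  rw [← h3]
  show q j = w j * ‖b j - z‖ ^ 3
  rw [hw]
  have := hr j
  field_simp

/-- the extremum condition in terms of `D`, `r`, `W` -/
theorem ext_cond (q : Fin 3 → ℝ) (b : Fin 3 → ℂ) (z : ℂ) (κ : ℝ) (hz : ∀ j, b j - z ≠ 0)
    (hκ : ∀ j, q j = κ * bD b z j * bR b z j ^ 3) :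
    (PT q b z ^ 2 - 9 * ‖PM q b z‖ ^ 2) * (bR b z 0 ^ 2 * bR b z 1 ^ 2 * bR b z 2 ^ 2) =
    4 * κ ^ 2 * (9 * (bW b z * (bD b z 0 * bD b z 1 * bD b z 2)) -
      2 * T2 b ^ 2 * (bR b z 0 ^ 2 * bR b z 1 ^ 2 * bR b z 2 ^ 2)) := by
  have hPT : PT q b z = κ * T2 b := by
    unfold PT
    rw [← bD_sum b z, Finset.mul_sum]
    refine Finset.sum_congr rfl fun j _ => ?_
    rw [hκ j]
    have : ‖b j - z‖ ≠ 0 := norm_ne_zero_iff.mpr (hz j)
    show κ * bD b z j * ‖b j - z‖ ^ 3 / ‖b j - z‖ ^ 3 = _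
    field_simp
  have hPM : PM q b z = (κ : ℂ) * ∑ j, ((bD b z j / bR b z j ^ 2 : ℝ) : ℂ) * (b j - z) ^ 2 := by
    unfold PM
    rw [Finset.mul_sum]
    refine Finset.sum_congr rfl fun j _ => ?_
    rw [hκ j, ← mul_assoc]
    congr 1
    have : ‖b j - z‖ ≠ 0 := norm_ne_zero_iff.mpr (hz j)
    rw [← Complex.ofReal_mul]
    congr 1
    show κ * bD b z j * ‖b j - z‖ ^ 3 / ‖b j - z‖ ^ 5 = κ * (bD b z j / ‖b j - z‖ ^ 2)
    field_simp
  have hnorm : ‖PM q b z‖ ^ 2 * (bR b z 0 ^ 2 * bR b z 1 ^ 2 * bR b z 2 ^ 2) =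
      κ ^ 2 * (T2 b ^ 2 * (bR b z 0 ^ 2 * bR b z 1 ^ 2 * bR b z 2 ^ 2) -
        4 * (bW b z * (bD b z 0 * bD b z 1 * bD b z 2))) := by
    rw [hPM, norm_mul, mul_pow, Complex.norm_real, Real.norm_eq_abs, sq_abs, mul_assoc]
    congr 1
    rw [sq_norm_eq, Fin.sum_univ_three, bW_expand, ← bD_sum b z, Fin.sum_univ_three]
    obtain ⟨n0, hn0⟩ : ∃ n0, n0 = bD b z 0 / bR b z 0 ^ 2 := ⟨_, rfl⟩
    obtain ⟨n1, hn1⟩ : ∃ n1, n1 = bD b z 1 / bR b z 1 ^ 2 := ⟨_, rfl⟩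
    obtain ⟨n2, hn2⟩ : ∃ n2, n2 = bD b z 2 / bR b z 2 ^ 2 := ⟨_, rfl⟩
    have hr : ∀ j, bR b z j ≠ 0 := fun j => norm_ne_zero_iff.mpr (hz j)
    have m0 : bD b z 0 = n0 * bR b z 0 ^ 2 := by rw [hn0]; have := hr 0; field_simp
    have m1 : bD b z 1 = n1 * bR b z 1 ^ 2 := by rw [hn1]; have := hr 1; field_simp
    have m2 : bD b z 2 = n2 * bR b z 2 ^ 2 := by rw [hn2]; have := hr 2; field_simp
    have s0 : bR b z 0 ^ 2 = (b 0 - z).re * (b 0 - z).re + (b 0 - z).im * (b 0 - z).im :=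
      sq_norm_eq _
    have s1 : bR b z 1 ^ 2 = (b 1 - z).re * (b 1 - z).re + (b 1 - z).im * (b 1 - z).im :=
      sq_norm_eq _
    have s2 : bR b z 2 ^ 2 = (b 2 - z).re * (b 2 - z).re + (b 2 - z).im * (b 2 - z).im :=
      sq_norm_eq _
    have d0 : bD b z 0 = (b 1 - z).re * (b 2 - z).im - (b 1 - z).im * (b 2 - z).re := crs_eq _ _
    have d1 : bD b z 1 = (b 2 - z).re * (b 0 - z).im - (b 2 - z).im * (b 0 - z).re := crs_eq _ _
    have d2 : bD b z 2 = (b 0 - z).re * (b 1 - z).im - (b 0 - z).im * (b 1 - z).re := crs_eq _ _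
    rw [← hn0, ← hn1, ← hn2]
    simp only [Complex.add_re, Complex.add_im, Complex.mul_re, Complex.mul_im, Complex.ofReal_re,
      Complex.ofReal_im, pow_two (b _ - z)]
    -- abbreviate
    generalize (b 0 - z).re = x0 at *
    generalize (b 0 - z).im = y0 at *
    generalize (b 1 - z).re = x1 at *
    generalize (b 1 - z).im = y1 at *
    generalize (b 2 - z).re = x2 at *
    generalize (b 2 - z).im = y2 at *
    have key : (n0 * (x0 * x0 - y0 * y0) - 0 * (x0 * y0 + y0 * x0) +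
        (n1 * (x1 * x1 - y1 * y1) - 0 * (x1 * y1 + y1 * x1)) +
        (n2 * (x2 * x2 - y2 * y2) - 0 * (x2 * y2 + y2 * x2))) *
        (n0 * (x0 * x0 - y0 * y0) - 0 * (x0 * y0 + y0 * x0) +
        (n1 * (x1 * x1 - y1 * y1) - 0 * (x1 * y1 + y1 * x1)) +
        (n2 * (x2 * x2 - y2 * y2) - 0 * (x2 * y2 + y2 * x2))) +
        (n0 * (x0 * y0 + y0 * x0) + 0 * (x0 * x0 - y0 * y0) +
        (n1 * (x1 * y1 + y1 * x1) + 0 * (x1 * x1 - y1 * y1)) +
        (n2 * (x2 * y2 + y2 * x2) + 0 * (x2 * x2 - y2 * y2))) *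
        (n0 * (x0 * y0 + y0 * x0) + 0 * (x0 * x0 - y0 * y0) +
        (n1 * (x1 * y1 + y1 * x1) + 0 * (x1 * x1 - y1 * y1)) +
        (n2 * (x2 * y2 + y2 * x2) + 0 * (x2 * x2 - y2 * y2))) =
        (n0 * (x0 * x0 + y0 * y0) + n1 * (x1 * x1 + y1 * y1) + n2 * (x2 * x2 + y2 * y2)) ^ 2 -
        4 * (n0 * n1 * (x0 * y1 - y0 * x1) ^ 2 + n1 * n2 * (x1 * y2 - y1 * x2) ^ 2 +
          n2 * n0 * (x2 * y0 - y2 * x0) ^ 2) := by ring
    rw [key, ← s0, ← s1, ← s2, ← d0, ← d1, ← d2, m0, m1, m2]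
    ring
  rw [hPT, sub_mul, mul_assoc 9, hnorm]
  ring

theorem ext_cond_lt (q : Fin 3 → ℝ) (b : Fin 3 → ℂ) (z : ℂ) (κ : ℝ) (hκ0 : κ ≠ 0)
    (hz : ∀ j, b j - z ≠ 0) (hκ : ∀ j, q j = κ * bD b z j * bR b z j ^ 3)
    (hext : 9 * ‖PM q b z‖ ^ 2 < PT q b z ^ 2) :
    2 * T2 b ^ 2 * (bR b z 0 ^ 2 * bR b z 1 ^ 2 * bR b z 2 ^ 2) <
      9 * (bW b z * (bD b z 0 * bD b z 1 * bD b z 2)) := by
  have h := ext_cond q b z κ hz hκ
  have r0 : 0 < bR b z 0 := norm_pos_iff.mpr (hz 0)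
  have r1 : 0 < bR b z 1 := norm_pos_iff.mpr (hz 1)
  have r2 : 0 < bR b z 2 := norm_pos_iff.mpr (hz 2)
  have hκ2 : 0 < κ ^ 2 := by positivity
  have hl : 0 < (PT q b z ^ 2 - 9 * ‖PM q b z‖ ^ 2) *
      (bR b z 0 ^ 2 * bR b z 1 ^ 2 * bR b z 2 ^ 2) :=
    mul_pos (by linarith) (by positivity)
  rw [h] at hl
  have := (mul_pos_iff_of_pos_left (show 0 < 4 * κ ^ 2 by positivity)).mp hl
  linarith

theorem bary (b : Fin 3 → ℂ) (z : ℂ) :
    (T2 b : ℂ) * z = ∑ j, ((bD b z j : ℝ) : ℂ) * b j := by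
  rw [← bD_sum b z, Fin.sum_univ_three, Fin.sum_univ_three]
  show ((crs (b 1 - z) (b 2 - z) + crs (b 2 - z) (b 0 - z) + crs (b 0 - z) (b 1 - z) : ℝ) : ℂ) * z =
    (crs (b 1 - z) (b 2 - z) : ℂ) * b 0 + (crs (b 2 - z) (b 0 - z) : ℂ) * b 1 +
      (crs (b 0 - z) (b 1 - z) : ℂ) * b 2
  simp only [crs_eq, Complex.sub_re, Complex.sub_im]
  apply Complex.ext
  · simp only [Complex.add_re, Complex.mul_re, Complex.ofReal_re, Complex.ofReal_im]
    ring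
  · simp only [Complex.add_im, Complex.mul_im, Complex.ofReal_re, Complex.ofReal_im]
    ring

/-- `W T = Σ D_i D_j ℓ_ij²` -/
theorem WT_eq (b : Fin 3 → ℂ) (z : ℂ) : bW b z * T2 b =
    bD b z 0 * bD b z 1 * ‖b 0 - b 1‖ ^ 2 + bD b z 1 * bD b z 2 * ‖b 1 - b 2‖ ^ 2 +
      bD b z 2 * bD b z 0 * ‖b 2 - b 0‖ ^ 2 := by
  rw [bW_expand, ← bD_sum b z, Fin.sum_univ_three]
  have s0 : bR b z 0 ^ 2 = (b 0 - z).re * (b 0 - z).re + (b 0 - z).im * (b 0 - z).im :=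
    sq_norm_eq _
  have s1 : bR b z 1 ^ 2 = (b 1 - z).re * (b 1 - z).re + (b 1 - z).im * (b 1 - z).im :=
    sq_norm_eq _
  have s2 : bR b z 2 ^ 2 = (b 2 - z).re * (b 2 - z).re + (b 2 - z).im * (b 2 - z).im :=
    sq_norm_eq _
  have d0 : bD b z 0 = (b 1 - z).re * (b 2 - z).im - (b 1 - z).im * (b 2 - z).re := crs_eq _ _
  have d1 : bD b z 1 = (b 2 - z).re * (b 0 - z).im - (b 2 - z).im * (b 0 - z).re := crs_eq _ _
  have d2 : bD b z 2 = (b 0 - z).re * (b 1 - z).im - (b 0 - z).im * (b 1 - z).re := crs_eq _ _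
  rw [s0, s1, s2, d0, d1, d2, sq_norm_eq, sq_norm_eq, sq_norm_eq]
  simp only [Complex.sub_re, Complex.sub_im]
  ring

theorem vertex_neg {D0 D1 D2 l0 l1 l2 T : ℝ} (hT : 0 < T) (hs : D0 + D1 + D2 = T)
    (h1 : D1 < 0) (h2 : D2 < 0) (hl0 : 0 < l0) (hl2 : 0 < l2) (hl1 : 0 ≤ l1)
    (htri : l1 ≤ l0 + l2) :
    D0 * D1 * l0 ^ 2 + D1 * D2 * l1 ^ 2 + D2 * D0 * l2 ^ 2 < 0 := by
  have e : D0 = T - D1 - D2 := by linarith
  have h3 : D1 * D2 * l1 ^ 2 ≤ D1 * D2 * (l0 + l2) ^ 2 := by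
    apply mul_le_mul_of_nonneg_left _ (mul_pos_of_neg_of_neg h1 h2).le
    exact pow_le_pow_left₀ hl1 htri 2
  have h4 : T * (D1 * l0 ^ 2 + D2 * l2 ^ 2) < 0 := by
    apply mul_neg_of_pos_of_neg hT
    have := mul_neg_of_neg_of_pos h1 (pow_pos hl0 2)
    have := mul_neg_of_neg_of_pos h2 (pow_pos hl2 2)
    linarith
  rw [e]
  nlinarith [sq_nonneg (D1 * l0 - D2 * l2)]

/-- in the vertex regions `W < 0` -/
theorem W_neg_vertex (b : Fin 3 → ℂ) (z : ℂ) (hT : 0 < T2 b) 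
    (h : (bD b z 1 < 0 ∧ bD b z 2 < 0) ∨ (bD b z 2 < 0 ∧ bD b z 0 < 0) ∨
      (bD b z 0 < 0 ∧ bD b z 1 < 0)) : bW b z < 0 := by
  obtain ⟨n1, n2, n3, n4, n5, n6⟩ := bne hT
  have p01 : 0 < ‖b 0 - b 1‖ := norm_pos_iff.mpr n4
  have p12 : 0 < ‖b 1 - b 2‖ := norm_pos_iff.mpr n6
  have p20 : 0 < ‖b 2 - b 0‖ := norm_pos_iff.mpr n2
  have hs := bD_sum b z
  rw [Fin.sum_univ_three] at hs
  have hWT := WT_eq b z
  have t1 : ‖b 1 - b 2‖ ≤ ‖b 0 - b 1‖ + ‖b 2 - b 0‖ := by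
    have := norm_add_le (b 0 - b 1) (b 2 - b 0)
    have e : b 0 - b 1 + (b 2 - b 0) = -(b 1 - b 2) := by ring
    rwa [e, norm_neg] at this
  have t2 : ‖b 2 - b 0‖ ≤ ‖b 1 - b 2‖ + ‖b 0 - b 1‖ := by
    have := norm_add_le (b 1 - b 2) (b 0 - b 1)
    have e : b 1 - b 2 + (b 0 - b 1) = -(b 2 - b 0) := by ring
    rwa [e, norm_neg] at this
  have t3 : ‖b 0 - b 1‖ ≤ ‖b 2 - b 0‖ + ‖b 1 - b 2‖ := by
    have := norm_add_le (b 2 - b 0) (b 1 - b 2)
    have e : b 2 - b 0 + (b 1 - b 2) = -(b 0 - b 1) := by ring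
    rwa [e, norm_neg] at this
  have key : bW b z * T2 b < 0 := by
    rw [hWT]
    rcases h with ⟨h1, h2⟩ | ⟨h1, h2⟩ | ⟨h1, h2⟩
    · have := vertex_neg hT hs h1 h2 p01 p20 p12.le t1
      linarith
    · have := vertex_neg (D0 := bD b z 1) (D1 := bD b z 2) (D2 := bD b z 0) hT (by linarith)
        h1 h2 p12 p01 p20.le t2
      linarith
    · have := vertex_neg (D0 := bD b z 2) (D1 := bD b z 0) (D2 := bD b z 1) hT (by linarith)
        h1 h2 p20 p12 p01.le t3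
      linarith
  by_contra hc
  push Not at hc
  have := mul_nonneg hc hT.le
  linarith

theorem ext_unique_aux (hAU : AngleUnique) (q : Fin 3 → ℝ) (b : Fin 3 → ℂ) (hT : 0 < T2 b)
    (hq : ∀ j, q j ≠ 0) (z w : ℂ) (hz : PEq q b z) (hw : PEq q b w)
    (hez : 9 * ‖PM q b z‖ ^ 2 < PT q b z ^ 2) (hew : 9 * ‖PM q b w‖ ^ 2 < PT q b w ^ 2)
    (hpat : (∀ i, 0 < bD b z i) ∨ (0 < bD b z 0 ∧ 0 < bD b z 1 ∧ bD b z 2 < 0)) : z = w := by
  obtain ⟨κ, hκ0, hκ⟩ := peq_weights q b z hT.ne' hq hz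
  obtain ⟨κ', hκ0', hκ'⟩ := peq_weights q b w hT.ne' hq hw
  have nz : ∀ j, b j - z ≠ 0 := fun j => sub_ne_zero.mpr (hz.1 j).symm
  have nw : ∀ j, b j - w ≠ 0 := fun j => sub_ne_zero.mpr (hw.1 j).symm
  have cz := ext_cond_lt q b z κ hκ0 nz hκ hez
  have cw := ext_cond_lt q b w κ' hκ0' nw hκ' hew
  have rz : ∀ j, 0 < bR b z j := fun j => norm_pos_iff.mpr (nz j)
  have rw' : ∀ j, 0 < bR b w j := fun j => norm_pos_iff.mpr (nw j)
  have hsz := bD_sum b z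
  have hsw := bD_sum b w
  rw [Fin.sum_univ_three] at hsz hsw
  have pz : 0 < bW b z * (bD b z 0 * bD b z 1 * bD b z 2) := by
    have := rz 0; have := rz 1; have := rz 2
    have : 0 < 2 * T2 b ^ 2 * (bR b z 0 ^ 2 * bR b z 1 ^ 2 * bR b z 2 ^ 2) := by positivity
    linarith
  have pw : 0 < bW b w * (bD b w 0 * bD b w 1 * bD b w 2) := by
    have := rw' 0; have := rw' 1; have := rw' 2
    have : 0 < 2 * T2 b ^ 2 * (bR b w 0 ^ 2 * bR b w 1 ^ 2 * bR b w 2 ^ 2) := by positivity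
    linarith
  -- sign comparison
  have hsign : ∀ j, 0 < (κ * κ') * (bD b z j * bD b w j) := by
    intro j
    have hqj := hq j
    have e1 : (κ * bD b z j * bR b z j ^ 3) * (κ' * bD b w j * bR b w j ^ 3) = q j * q j := by
      rw [← hκ j, ← hκ' j]
    have e2 : 0 < q j * q j := mul_self_pos.mpr hqj
    rw [← e1] at e2
    have e3 : (κ * bD b z j * bR b z j ^ 3) * (κ' * bD b w j * bR b w j ^ 3) =
      (bR b z j ^ 3 * bR b w j ^ 3) * ((κ * κ') * (bD b z j * bD b w j)) := by ring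
    rw [e3] at e2
    have h1 := rz j
    have h2 := rw' j
    exact (mul_pos_iff_of_pos_left (by positivity)).mp e2
  have hsame : 0 < κ * κ' := by
    by_contra hcon
    have hneg : κ * κ' < 0 := lt_of_le_of_ne (not_lt.mp hcon) (mul_ne_zero hκ0 hκ0')
    have hopp : ∀ j, bD b z j * bD b w j < 0 := by
      intro j
      by_contra hc
      push Not at hc
      have := mul_nonpos_of_nonpos_of_nonneg hneg.le hc
      linarith [hsign j]
    rcases hpat with hp | ⟨h0, h1, h2⟩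
    · have k0 : bD b w 0 < 0 := by
        by_contra hc; push Not at hc
        linarith [hopp 0, mul_nonneg (hp 0).le hc]
      have k1 : bD b w 1 < 0 := by
        by_contra hc; push Not at hc
        linarith [hopp 1, mul_nonneg (hp 1).le hc]
      have k2 : bD b w 2 < 0 := by
        by_contra hc; push Not at hc
        linarith [hopp 2, mul_nonneg (hp 2).le hc]
      linarith
    · have k0 : bD b w 0 < 0 := by
        by_contra hc; push Not at hc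
        linarith [hopp 0, mul_nonneg h0.le hc]
      have k1 : bD b w 1 < 0 := by
        by_contra hc; push Not at hc
        linarith [hopp 1, mul_nonneg h1.le hc]
      have k2 : 0 < bD b w 2 := by
        by_contra hc; push Not at hc
        linarith [hopp 2, mul_nonneg_of_nonpos_of_nonpos h2.le hc]
      have kW := W_neg_vertex b w hT (Or.inr (Or.inr ⟨k0, k1⟩))
      have : 0 < bD b w 0 * bD b w 1 * bD b w 2 := mul_pos (mul_pos_of_neg_of_neg k0 k1) k2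
      linarith [mul_neg_of_neg_of_pos kW this]
  have hD : bD b z = bD b w := by
    have hsameD : ∀ j, 0 < bD b z j * bD b w j := fun j =>
      (mul_pos_iff_of_pos_left hsame).mp (hsign j)
    have hq' : ∀ i, κ * bD b z i * bR b z i ^ 3 = κ' * bD b w i * bR b w i ^ 3 := fun i => by
      rw [← hκ i, ← hκ' i]
    rcases hpat with hp | ⟨h0, h1, h2⟩
    · have hp' : ∀ i, 0 < bD b w i := fun i => (mul_pos_iff_of_pos_left (hp i)).mp (hsameD i)
      have hWz : 0 < bW b z := by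
        have hh : 0 < bD b z 0 * bD b z 1 * bD b z 2 := by
          have := hp 0; have := hp 1; have := hp 2; positivity
        exact (mul_pos_iff_of_pos_right hh).mp pz
      have hWw : 0 < bW b w := by
        have hh : 0 < bD b w 0 * bD b w 1 * bD b w 2 := by
          have := hp' 0; have := hp' 1; have := hp' 2; positivity
        exact (mul_pos_iff_of_pos_right hh).mp pw
      obtain ⟨t, ht⟩ := zdata_case1 b z hT nz hp hWz
      obtain ⟨t', ht'⟩ := zdata_case1 b w hT nw hp' hWw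
      exact unique_core hAU ht ht' cz cw κ κ' hκ0 hκ0' hq'
    · have k0 : 0 < bD b w 0 := (mul_pos_iff_of_pos_left h0).mp (hsameD 0)
      have k1 : 0 < bD b w 1 := (mul_pos_iff_of_pos_left h1).mp (hsameD 1)
      have k2 : bD b w 2 < 0 := by
        by_contra hc; push Not at hc
        linarith [hsameD 2, mul_nonpos_of_nonpos_of_nonneg h2.le hc]
      have hWz : bW b z < 0 := by
        by_contra hc; push Not at hc
        have := mul_nonpos_of_nonneg_of_nonpos hc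
          (mul_neg_of_pos_of_neg (mul_pos h0 h1) h2).le
        linarith
      have hWw : bW b w < 0 := by
        by_contra hc; push Not at hc
        have := mul_nonpos_of_nonneg_of_nonpos hc
          (mul_neg_of_pos_of_neg (mul_pos k0 k1) k2).le
        linarith
      obtain ⟨t, ht⟩ := zdata_case2 b z hT nz h0 h1 h2 hWz
      obtain ⟨t', ht'⟩ := zdata_case2 b w hT nw k0 k1 k2 hWw
      exact unique_core hAU ht ht' cz cw κ κ' hκ0 hκ0' hq'
  have e1 := bary b z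
  have e2 := bary b w
  rw [hD, ← e2] at e1
  exact mul_left_cancel₀ (Complex.ofReal_ne_zero.mpr hT.ne') e1

/-- rotation of the labels -/
def rot {α : Type*} (f : Fin 3 → α) : Fin 3 → α := ![f 1, f 2, f 0]

theorem T2_rot (b : Fin 3 → ℂ) : T2 (rot b) = T2 b := by
  rw [← crs_T2_1 b]; rfl

theorem PT_rot (q : Fin 3 → ℝ) (b : Fin 3 → ℂ) (z : ℂ) : PT (rot q) (rot b) z = PT q b z := by
  unfold PT
  rw [Fin.sum_univ_three, Fin.sum_univ_three]
  show q 1 / ‖b 1 - z‖ ^ 3 + q 2 / ‖b 2 - z‖ ^ 3 + q 0 / ‖b 0 - z‖ ^ 3 = _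
  ring

theorem PM_rot (q : Fin 3 → ℝ) (b : Fin 3 → ℂ) (z : ℂ) : PM (rot q) (rot b) z = PM q b z := by
  unfold PM
  rw [Fin.sum_univ_three, Fin.sum_univ_three]
  show ((q 1 / ‖b 1 - z‖ ^ 5 : ℝ) : ℂ) * (b 1 - z) ^ 2 +
    ((q 2 / ‖b 2 - z‖ ^ 5 : ℝ) : ℂ) * (b 2 - z) ^ 2 +
    ((q 0 / ‖b 0 - z‖ ^ 5 : ℝ) : ℂ) * (b 0 - z) ^ 2 = _
  ring

theorem PGrad_rot (q : Fin 3 → ℝ) (b : Fin 3 → ℂ) (z : ℂ) :
    PGrad (rot q) (rot b) z = PGrad q b z := by
  unfold PGrad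
  rw [Fin.sum_univ_three, Fin.sum_univ_three]
  show ((q 1 / ‖b 1 - z‖ ^ 3 : ℝ) : ℂ) * (b 1 - z) +
    ((q 2 / ‖b 2 - z‖ ^ 3 : ℝ) : ℂ) * (b 2 - z) +
    ((q 0 / ‖b 0 - z‖ ^ 3 : ℝ) : ℂ) * (b 0 - z) = _
  ring

theorem PEq_rot {q : Fin 3 → ℝ} {b : Fin 3 → ℂ} {z : ℂ} (h : PEq q b z) :
    PEq (rot q) (rot b) z := by
  refine ⟨fun j => ?_, by rw [PGrad_rot]; exact h.2⟩
  fin_cases j
  · exact h.1 1
  · exact h.1 2
  · exact h.1 0

theorem ext_unique (hAU : AngleUnique) (q : Fin 3 → ℝ) (b : Fin 3 → ℂ) (hT : 0 < T2 b)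
    (hq : ∀ j, q j ≠ 0) (z w : ℂ) (hz : PEq q b z) (hw : PEq q b w)
    (hez : 9 * ‖PM q b z‖ ^ 2 < PT q b z ^ 2) (hew : 9 * ‖PM q b w‖ ^ 2 < PT q b w ^ 2) :
    z = w := by
  obtain ⟨κ, hκ0, hκ⟩ := peq_weights q b z hT.ne' hq hz
  have nz : ∀ j, b j - z ≠ 0 := fun j => sub_ne_zero.mpr (hz.1 j).symm
  have cz := ext_cond_lt q b z κ hκ0 nz hκ hez
  have rz : ∀ j, 0 < bR b z j := fun j => norm_pos_iff.mpr (nz j)
  have hsz := bD_sum b z
  rw [Fin.sum_univ_three] at hsz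
  have pz : 0 < bW b z * (bD b z 0 * bD b z 1 * bD b z 2) := by
    have := rz 0; have := rz 1; have := rz 2
    have : 0 < 2 * T2 b ^ 2 * (bR b z 0 ^ 2 * bR b z 1 ^ 2 * bR b z 2 ^ 2) := by positivity
    linarith
  have hne : ∀ i, bD b z i ≠ 0 := by
    intro i hi
    have := hκ i
    rw [hi, mul_zero, zero_mul] at this
    exact hq i this
  have hex : ¬ (0 < bD b z 0 * bD b z 1 * bD b z 2 ∧ bW b z < 0) := by
    rintro ⟨h1, h2⟩
    linarith [mul_neg_of_neg_of_pos h2 h1]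
  rcases lt_or_gt_of_ne (hne 0) with h0 | h0 <;> rcases lt_or_gt_of_ne (hne 1) with h1 | h1 <;>
    rcases lt_or_gt_of_ne (hne 2) with h2 | h2
  · linarith
  · exact absurd ⟨mul_pos (mul_pos_of_neg_of_neg h0 h1) h2,
      W_neg_vertex b z hT (Or.inr (Or.inr ⟨h0, h1⟩))⟩ hex
  · exact absurd ⟨mul_pos_of_neg_of_neg (mul_neg_of_neg_of_pos h0 h1) h2,
      W_neg_vertex b z hT (Or.inr (Or.inl ⟨h2, h0⟩))⟩ hex
  · -- D0 < 0
    refine ext_unique_aux hAU (rot q) (rot b) (by rw [T2_rot]; exact hT) ?_ z w (PEq_rot hz)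
      (PEq_rot hw) (by rw [PM_rot, PT_rot]; exact hez) (by rw [PM_rot, PT_rot]; exact hew)
      (Or.inr ⟨h1, h2, h0⟩)
    intro j; fin_cases j
    · exact hq 1
    · exact hq 2
    · exact hq 0
  · exact absurd ⟨mul_pos_of_neg_of_neg (mul_neg_of_pos_of_neg h0 h1) h2,
      W_neg_vertex b z hT (Or.inl ⟨h1, h2⟩)⟩ hex
  · -- D1 < 0
    refine ext_unique_aux hAU (rot (rot q)) (rot (rot b)) (by rw [T2_rot, T2_rot]; exact hT) ?_ z w
      (PEq_rot (PEq_rot hz)) (PEq_rot (PEq_rot hw))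
      (by rw [PM_rot, PT_rot, PM_rot, PT_rot]; exact hez)
      (by rw [PM_rot, PT_rot, PM_rot, PT_rot]; exact hew)
      (Or.inr ⟨h2, h0, h1⟩)
    intro j; fin_cases j
    · exact hq 2
    · exact hq 0
    · exact hq 1
  · -- D2 < 0
    exact ext_unique_aux hAU q b hT hq z w hz hw hez hew (Or.inr ⟨h0, h1, h2⟩)
  · refine ext_unique_aux hAU q b hT hq z w hz hw hez hew (Or.inl ?_)
    intro i; fin_cases i
    · exact h0
    · exact h1
    · exact h2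

open N62f3cee0 in
theorem main_of (hAU : AngleUnique) (hPC : PlanarCount)
    (hcoll : ∀ (q : Fin 3 → ℝ) (a : Fin 3 → EuclideanSpace ℝ (Fin 3)), Function.Injective a →
      (∀ j, q j ≠ 0) → Collinear ℝ (Set.range a) →
      (∀ x ∈ equilibria q a, HasNondegenerateHessianAt (potential q a) x) →
      (equilibria q a).encard ≤ 4)
    (q : Fin 3 → ℝ) (a : Fin 3 → EuclideanSpace ℝ (Fin 3)) (ha : Function.Injective a)
    (hq : ∀ j, q j ≠ 0)
    (hnd : ∀ x ∈ equilibria q a, HasNondegenerateHessianAt (potential q a) x) :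
    (equilibria q a).encard ≤ 4 := by
  by_cases hcol : Collinear ℝ (Set.range a)
  · exact hcoll q a ha hq hcol hnd
  · obtain ⟨p, u, v, b, hu, hv, huv, rfl, hT⟩ := exists_chart a hcol
    rw [equilibria_chart p u v hu hv huv q hq b hT.ne'] at hnd ⊢
    refine (Set.encard_image_le _ _).trans ?_
    refine hPC q b hT.ne' hq ?_ ?_
    · intro z hz
      exact nondeg_chart hu hv huv q b z hz.1 (hnd _ ⟨z, hz, rfl⟩)
    · intro z w hz hw hez hew
      exact ext_unique hAU q b hT hq z w hz hw hez hew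

end Pool.Agent.MX
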