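import Mathlib

set_option autoImplicit false

open Real (pi sin cos)

namespace Pool.Agent.MX

theorem ident_a (A B C D : ℝ) (hA : sin A ≠ 0) (hB : sin B ≠ 0) (hC : sin C ≠ 0)
    (hD : sin D ≠ 0) (hAC : sin (A + C) ≠ 0) (hBD : sin (B + D) ≠ 0) :
    16 * sin (A + C) * sin (B + D) *
      ((cos A / sin A + cos B / sin B) / 2 * ((cos C / sin C + cos D / sin D) / 2) +
       (cos C / sin C + cos D / sin D) / 2 *
        ((-cos (A + C) / sin (A + C) - cos (B + D) / sin (B + D)) / 2) +
       (-cos (A + C) / sin (A + C) - cos (B + D) / sin (B + D)) / 2 *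
        ((cos A / sin A + cos B / sin B) / 2) - 9 / 8) =
    4 * (sin A * sin D / (sin B * sin C) + sin B * sin C / (sin A * sin D)) -
      9 * cos (A - B + C - D) + cos (A + B + C + D) := by
  obtain ⟨a, ha⟩ : ∃ a, a = cos A / sin A := ⟨_, rfl⟩
  obtain ⟨b, hb⟩ : ∃ b, b = cos B / sin B := ⟨_, rfl⟩
  obtain ⟨c, hc⟩ : ∃ c, c = cos C / sin C := ⟨_, rfl⟩
  obtain ⟨d, hd⟩ : ∃ d, d = cos D / sin D := ⟨_, rfl⟩
  have cA : cos A = a * sin A := by rw [ha]; field_simp
  have cB : cos B = b * sin B := by rw [hb]; field_simp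
  have cC : cos C = c * sin C := by rw [hc]; field_simp
  have cD : cos D = d * sin D := by rw [hd]; field_simp
  have qA : sin A ^ 2 * (1 + a ^ 2) = 1 := by
    have := Real.sin_sq_add_cos_sq A
    rw [cA] at this; linear_combination this
  have qB : sin B ^ 2 * (1 + b ^ 2) = 1 := by
    have := Real.sin_sq_add_cos_sq B
    rw [cB] at this; linear_combination this
  have qC : sin C ^ 2 * (1 + c ^ 2) = 1 := by
    have := Real.sin_sq_add_cos_sq C
    rw [cC] at this; linear_combination this
  have qD : sin D ^ 2 * (1 + d ^ 2) = 1 := by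
    have := Real.sin_sq_add_cos_sq D
    rw [cD] at this; linear_combination this
  have e1 : sin A * sin D / (sin B * sin C) =
      sin A * sin B * sin C * sin D * ((1 + b ^ 2) * (1 + c ^ 2)) := by
    rw [div_eq_iff (mul_ne_zero hB hC)]
    linear_combination (-(sin A * sin D) * (sin C ^ 2 * (1 + c ^ 2))) * qB -
      (sin A * sin D) * qC
  have e2 : sin B * sin C / (sin A * sin D) =
      sin A * sin B * sin C * sin D * ((1 + a ^ 2) * (1 + d ^ 2)) := by
    rw [div_eq_iff (mul_ne_zero hA hD)]
    linear_combination (-(sin B * sin C) * (sin D ^ 2 * (1 + d ^ 2))) * qA -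
      (sin B * sin C) * qD
  have s1 : sin (A + C) = sin A * sin C * (a + c) := by
    rw [Real.sin_add, cA, cC]; ring
  have k1 : cos (A + C) = sin A * sin C * (a * c - 1) := by
    rw [Real.cos_add, cA, cC]; ring
  have s2 : sin (B + D) = sin B * sin D * (b + d) := by
    rw [Real.sin_add, cB, cD]; ring
  have k2 : cos (B + D) = sin B * sin D * (b * d - 1) := by
    rw [Real.cos_add, cB, cD]; ring
  have f1 : cos (A - B + C - D) = cos (A + C) * cos (B + D) + sin (A + C) * sin (B + D) := by
    rw [← Real.cos_sub]; congr 1; ring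
  have f2 : cos (A + B + C + D) = cos (A + C) * cos (B + D) - sin (A + C) * sin (B + D) := by
    rw [← Real.cos_add]; congr 1; ring
  have g : sin (A + C) * sin (B + D) *
      (-cos (A + C) / sin (A + C) - cos (B + D) / sin (B + D)) =
      -(cos (A + C) * sin (B + D) + cos (B + D) * sin (A + C)) := by
    field_simp
    ring
  have main : 16 * sin (A + C) * sin (B + D) *
      ((a + b) / 2 * ((c + d) / 2) + (c + d) / 2 *
        ((-cos (A + C) / sin (A + C) - cos (B + D) / sin (B + D)) / 2) +
       (-cos (A + C) / sin (A + C) - cos (B + D) / sin (B + D)) / 2 *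
        ((a + b) / 2) - 9 / 8) =
      4 * sin (A + C) * sin (B + D) * ((a + b) * (c + d)) -
      4 * (a + b + c + d) * (cos (A + C) * sin (B + D) + cos (B + D) * sin (A + C)) -
      18 * (sin (A + C) * sin (B + D)) := by
    linear_combination (4 * (a + b + c + d)) * g
  rw [← ha, ← hb, ← hc, ← hd, main, e1, e2, f1, f2, s1, k1, s2, k2]
  ring

end Pool.Agent.MX
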