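import Mathlib
import Pool.Agent.Lib_helper17.MX.Defs

set_option autoImplicit false

open Real (pi sin cos)

namespace Pool.Agent.MX

/-- `e_2(cot) = 1` for the angles of a triangle -/
theorem cot_e2 (x y z : ℝ) (h : x + y + z = pi) (hx : sin x ≠ 0) (hy : sin y ≠ 0)
    (hz : sin z ≠ 0) :
    cos x / sin x * (cos y / sin y) + cos y / sin y * (cos z / sin z) +
      cos z / sin z * (cos x / sin x) = 1 := by
  have hz' : z = pi - (x + y) := by linarith
  have hs : sin z = sin x * cos y + cos x * sin y := by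
    rw [hz', Real.sin_pi_sub, Real.sin_add]
  have hc : cos z = -(cos x * cos y - sin x * sin y) := by
    rw [hz', Real.cos_pi_sub, Real.cos_add]
  field_simp
  have h1 := Real.sin_sq_add_cos_sq x
  have h2 := Real.sin_sq_add_cos_sq y
  rw [hc, hs]
  ring

theorem form_definite {s0 s1 s2 v0 v1 v2 : ℝ} (he : 0 < s0 * s1 + s1 * s2 + s2 * s0)
    (hv : v0 + v1 + v2 = 0) (hz : s0 * v0 ^ 2 + s1 * v1 ^ 2 + s2 * v2 ^ 2 = 0) :
    v0 = 0 ∧ v1 = 0 ∧ v2 = 0 := by
  have e2 : v2 = -v0 - v1 := by linarith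
  subst e2
  have k1 : (s0 + s2) * ((s0 + s2) * v0 ^ 2 + 2 * s2 * (v0 * v1) + (s1 + s2) * v1 ^ 2) = 0 := by
    have : (s0 + s2) * v0 ^ 2 + 2 * s2 * (v0 * v1) + (s1 + s2) * v1 ^ 2 = 0 := by
      linear_combination hz
    rw [this, mul_zero]
  have k2 : ((s0 + s2) * v0 + s2 * v1) ^ 2 +
      (s0 * s1 + s1 * s2 + s2 * s0) * v1 ^ 2 = 0 := by
    linear_combination k1
  have k3 : v1 = 0 := by
    by_contra hne
    have : 0 < (s0 * s1 + s1 * s2 + s2 * s0) * v1 ^ 2 := by positivity
    nlinarith [sq_nonneg ((s0 + s2) * v0 + s2 * v1)]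
  subst k3
  have k4 : (s0 + s2) * v0 ^ 2 = 0 := by linear_combination hz
  have k5 : s0 + s2 ≠ 0 := by
    intro h
    have : s0 = -s2 := by linarith
    subst this
    nlinarith [sq_nonneg s2]
  have k6 : v0 = 0 := by
    have := (mul_eq_zero.mp k4).resolve_left k5
    exact pow_eq_zero_iff two_ne_zero |>.mp this
  subst k6
  simp

theorem rolle_part (c th th' : Fin 3 → ℝ) (hc : ∑ i, c i = 2 * pi)
    (h : ∀ i, 0 < th i ∧ th i < c i) (h' : ∀ i, 0 < th' i ∧ th' i < c i)
    (hs : ∑ i, th i = pi) (hs' : ∑ i, th' i = pi)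
    (hseg : ∀ t ∈ Set.Ioo (0:ℝ) 1, FF c (fun i => th i + t * (th' i - th i)) < 9 / 8)
    (lam : ℝ) (hm : ∀ i, sin (th i) * sin (c i - th i) ^ 2
      = lam * (sin (th' i) * sin (c i - th' i) ^ 2)) : th = th' := by
  rw [Fin.sum_univ_three] at hc hs hs'
  obtain ⟨v, hv⟩ : ∃ v : Fin 3 → ℝ, v = fun i => th' i - th i := ⟨_, rfl⟩
  obtain ⟨p, hp⟩ : ∃ p : ℝ → Fin 3 → ℝ, p = fun t i => th i + t * v i := ⟨_, rfl⟩
  have hv0 : v 0 + v 1 + v 2 = 0 := by rw [hv]; linarith
  have hpe : ∀ t i, p t i = th i + t * v i := by intro t i; rw [hp]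
  have hpi : ∀ t ∈ Set.Icc (0:ℝ) 1, ∀ i, 0 < p t i ∧ p t i < c i := by
    intro t ht i
    have e : p t i = (1 - t) * th i + t * th' i := by rw [hpe, hv]; ring
    rw [e]
    obtain ⟨h1, h2⟩ := h i
    obtain ⟨h3, h4⟩ := h' i
    obtain ⟨t0, t1⟩ := ht
    rcases eq_or_lt_of_le t0 with h0 | h0
    · subst h0; constructor <;> linarith
    · constructor
      · have := mul_nonneg (sub_nonneg.mpr t1) h1.le
        have := mul_pos h0 h3
        linarith
      · have := mul_nonneg (sub_nonneg.mpr t1) (sub_pos.mpr h2).le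
        have := mul_pos h0 (sub_pos.mpr h4)
        nlinarith
  have hps : ∀ t, p t 0 + p t 1 + p t 2 = pi := by
    intro t; rw [hpe, hpe, hpe]; linear_combination hs + t * hv0
  have hsin : ∀ t ∈ Set.Icc (0:ℝ) 1, ∀ i, 0 < sin (p t i) ∧ 0 < sin (c i - p t i) := by
    intro t ht i
    have h0 := hpi t ht 0
    have h1 := hpi t ht 1
    have h2 := hpi t ht 2
    have hsum := hps t
    constructor
    · apply Real.sin_pos_of_pos_of_lt_pi (hpi t ht i).1
      fin_cases i
      · show p t 0 < pi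
        linarith
      · show p t 1 < pi
        linarith
      · show p t 2 < pi
        linarith
    · apply Real.sin_pos_of_pos_of_lt_pi (by linarith [(hpi t ht i).2])
      fin_cases i
      · show c 0 - p t 0 < pi
        linarith
      · show c 1 - p t 1 < pi
        linarith
      · show c 2 - p t 2 < pi
        linarith
  -- the function
  obtain ⟨g, hg⟩ : ∃ g : ℝ → ℝ, g = fun t => v 0 * (Real.log (sin (p t 0)) +
      2 * Real.log (sin (c 0 - p t 0))) + v 1 * (Real.log (sin (p t 1)) +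
      2 * Real.log (sin (c 1 - p t 1))) + v 2 * (Real.log (sin (p t 2)) +
      2 * Real.log (sin (c 2 - p t 2))) := ⟨_, rfl⟩
  have hder1 : ∀ t ∈ Set.Icc (0:ℝ) 1, ∀ i, HasDerivAt (fun t => v i * (Real.log (sin (p t i)) +
      2 * Real.log (sin (c i - p t i))))
      ((cos (p t i) / sin (p t i) - 2 * (cos (c i - p t i) / sin (c i - p t i))) * v i ^ 2) t := by
    intro t ht i
    obtain ⟨s1, s2⟩ := hsin t ht i
    have hpd : HasDerivAt (fun t => p t i) (v i) t := by
      have : (fun t => p t i) = fun t => th i + t * v i := by funext t; exact hpe t i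
      rw [this]
      simpa using ((hasDerivAt_id t).mul_const (v i)).const_add (th i)
    have d1 := (hpd.sin).log s1.ne'
    have d2 := ((hpd.const_sub (c i)).sin).log s2.ne'
    refine ((d1.add (d2.const_mul 2)).const_mul (v i)).congr_deriv ?_
    field_simp
    ring
  have hder : ∀ t ∈ Set.Icc (0:ℝ) 1, HasDerivAt g
      ((cos (p t 0) / sin (p t 0) - 2 * (cos (c 0 - p t 0) / sin (c 0 - p t 0))) * v 0 ^ 2 +
       (cos (p t 1) / sin (p t 1) - 2 * (cos (c 1 - p t 1) / sin (c 1 - p t 1))) * v 1 ^ 2 +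
       (cos (p t 2) / sin (p t 2) - 2 * (cos (c 2 - p t 2) / sin (c 2 - p t 2))) * v 2 ^ 2) t := by
    intro t ht
    rw [hg]
    exact ((hder1 t ht 0).add (hder1 t ht 1)).add (hder1 t ht 2)
  have hcont : ContinuousOn g (Set.Icc 0 1) := fun t ht => (hder t ht).continuousAt.continuousWithinAt
  have hend : g 0 = g 1 := by
    have p0 : ∀ i, p 0 i = th i := fun i => by rw [hpe]; ring
    have p1 : ∀ i, p 1 i = th' i := fun i => by rw [hpe, hv]; ring
    have i0 : (0:ℝ) ∈ Set.Icc (0:ℝ) 1 := by simp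
    have i1 : (1:ℝ) ∈ Set.Icc (0:ℝ) 1 := by simp
    have hlam : 0 < lam := by
      have a := hsin 0 i0 0
      have b := hsin 1 i1 0
      rw [p0] at a
      rw [p1] at b
      have hpos1 : 0 < sin (th 0) * sin (c 0 - th 0) ^ 2 := by
        obtain ⟨a1, a2⟩ := a; positivity
      have hpos2 : 0 < sin (th' 0) * sin (c 0 - th' 0) ^ 2 := by
        obtain ⟨a1, a2⟩ := b; positivity
      rw [hm 0] at hpos1
      exact (mul_pos_iff_of_pos_right hpos2).mp hpos1
    have hlog : ∀ i, Real.log (sin (th i)) + 2 * Real.log (sin (c i - th i)) =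
        Real.log lam + (Real.log (sin (th' i)) + 2 * Real.log (sin (c i - th' i))) := by
      intro i
      obtain ⟨a1, a2⟩ := hsin 0 i0 i
      obtain ⟨b1, b2⟩ := hsin 1 i1 i
      rw [p0] at a1 a2
      rw [p1] at b1 b2
      have e1 : Real.log (sin (th i)) + 2 * Real.log (sin (c i - th i)) =
          Real.log (sin (th i) * sin (c i - th i) ^ 2) := by
        rw [Real.log_mul a1.ne' (pow_ne_zero 2 a2.ne'), Real.log_pow]; norm_num
      have e2 : Real.log (sin (th' i)) + 2 * Real.log (sin (c i - th' i)) =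
          Real.log (sin (th' i) * sin (c i - th' i) ^ 2) := by
        rw [Real.log_mul b1.ne' (pow_ne_zero 2 b2.ne'), Real.log_pow]; norm_num
      rw [e1, e2, hm i, Real.log_mul hlam.ne' (by positivity)]
    rw [hg]
    simp only [p0, p1]
    rw [hlog 0, hlog 1, hlog 2]
    linear_combination (Real.log lam) * hv0
  obtain ⟨t, ht, hgt⟩ := exists_hasDerivAt_eq_zero (f := g) (by norm_num : (0:ℝ) < 1) hcont hend
    (fun t ht => hder t (Set.Ioo_subset_Icc_self ht))
  have htI := Set.Ioo_subset_Icc_self ht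
  have hF : FF c (p t) < 9 / 8 := by
    have := hseg t ht
    have e : (fun i => th i + t * (th' i - th i)) = p t := by
      funext i; rw [hpe, hv]
    rwa [e] at this
  have hsn := hsin t htI
  have hA := cot_e2 (p t 0) (p t 1) (p t 2) (hps t) (hsn 0).1.ne' (hsn 1).1.ne' (hsn 2).1.ne'
  have hB := cot_e2 (c 0 - p t 0) (c 1 - p t 1) (c 2 - p t 2) (by linarith [hps t])
    (hsn 0).2.ne' (hsn 1).2.ne' (hsn 2).2.ne'
  unfold FF tau at hF
  have hfin := form_definite (s0 := cos (p t 0) / sin (p t 0) -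
      2 * (cos (c 0 - p t 0) / sin (c 0 - p t 0)))
    (s1 := cos (p t 1) / sin (p t 1) - 2 * (cos (c 1 - p t 1) / sin (c 1 - p t 1)))
    (s2 := cos (p t 2) / sin (p t 2) - 2 * (cos (c 2 - p t 2) / sin (c 2 - p t 2)))
    (v0 := v 0) (v1 := v 1) (v2 := v 2) ?_ hv0 hgt
  · obtain ⟨h0, h1, h2⟩ := hfin
    rw [hv] at h0 h1 h2
    funext i
    fin_cases i
    · show th 0 = th' 0
      simp only at h0; linarith
    · show th 1 = th' 1
      simp only at h1; linarith
    · show th 2 = th' 2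
      simp only at h2; linarith
  · generalize cos (p t 0) / sin (p t 0) = a0 at *
    generalize cos (p t 1) / sin (p t 1) = a1 at *
    generalize cos (p t 2) / sin (p t 2) = a2 at *
    generalize cos (c 0 - p t 0) / sin (c 0 - p t 0) = b0 at *
    generalize cos (c 1 - p t 1) / sin (c 1 - p t 1) = b1 at *
    generalize cos (c 2 - p t 2) / sin (c 2 - p t 2) = b2 at *
    nlinarith

end Pool.Agent.MX
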